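import Pool.Agent.H370.UL.Power

namespace Pool.Agent.H370.UL

open Matrix

theorem legendre_of_natAbs {q₁ q₂ D : ℕ} (hp₁ : Fact q₁.Prime) (hp₂ : Fact q₂.Prime)
    (h₁ : q₁ % 4 = 3) (h₂ : q₂ % 4 = 3) (hD : D % 4 = 3) (hdvd : (D : ℤ) ∣ q₁ * q₂ + 1) :
    legendreSym q₁ D * legendreSym q₂ D = -1 := by
  rw [jacobiSym.legendreSym.to_jacobiSym, jacobiSym.legendreSym.to_jacobiSym,
    jacobiSym.quadratic_reciprocity_three_mod_four hD h₁,
    jacobiSym.quadratic_reciprocity_three_mod_four hD h₂, neg_mul_neg, ← jacobiSym.mul_left]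
  have h3 : jacobiSym ((q₁ : ℤ) * q₂) D = jacobiSym (-1) D := by
    apply jacobiSym.mod_left'
    have : ((q₁ : ℤ) * q₂) ≡ -1 [ZMOD D] := by
      apply Int.ModEq.symm
      rw [Int.modEq_iff_dvd]
      simpa using hdvd
    exact this
  have hodd : Odd D := by rw [Nat.odd_iff]; omega
  rw [h3, jacobiSym.at_neg_one hodd, ZMod.χ₄_nat_three_mod_four hD]

theorem legendre_product {q₁ q₂ : ℕ} (hp₁ : Fact q₁.Prime) (hp₂ : Fact q₂.Prime) {a d : ℤ}
    (h₁ : q₁ % 4 = 3) (h₂ : q₂ % 4 = 3) (hd : d.natAbs % 4 = 3) (had : a * d - q₂ * q₁ = 1) :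
    legendreSym q₁ d * legendreSym q₂ d = -1 := by
  have hdvd : ((d.natAbs : ℕ) : ℤ) ∣ q₁ * q₂ + 1 := by
    rw [Int.natAbs_dvd]
    exact ⟨a, by linear_combination -had⟩
  have key := legendre_of_natAbs hp₁ hp₂ h₁ h₂ hd hdvd
  rcases Int.natAbs_eq d with h | h
  · rw [h]; exact key
  · rw [h]
    have e₁ : legendreSym q₁ (-((d.natAbs : ℕ) : ℤ)) = -legendreSym q₁ ((d.natAbs : ℕ) : ℤ) := by
      rw [jacobiSym.legendreSym.to_jacobiSym, jacobiSym.legendreSym.to_jacobiSym, jacobiSym.neg _ (by rw [Nat.odd_iff]; omega),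
        ZMod.χ₄_nat_three_mod_four h₁, neg_one_mul]
    have e₂ : legendreSym q₂ (-((d.natAbs : ℕ) : ℤ)) = -legendreSym q₂ ((d.natAbs : ℕ) : ℤ) := by
      rw [jacobiSym.legendreSym.to_jacobiSym, jacobiSym.legendreSym.to_jacobiSym, jacobiSym.neg _ (by rw [Nat.odd_iff]; omega),
        ZMod.χ₄_nat_three_mod_four h₂, neg_one_mul]
    rw [e₁, e₂, neg_mul_neg]; exact key

theorem legendre_ne_zero {q : ℕ} (hp : Fact q.Prime) {a d m : ℤ} (had : a * d - m * q = 1) :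
    legendreSym q a * legendreSym q d = 1 := by
  rw [← legendreSym.mul]
  have : legendreSym q (a * d) = legendreSym q 1 := by
    rw [legendreSym.mod, legendreSym.mod q 1]
    congr 1
    have : a * d ≡ 1 [ZMOD q] := by
      apply Int.ModEq.symm
      rw [Int.modEq_iff_dvd]
      exact ⟨m, by linear_combination had⟩
    exact this
  rw [this, legendreSym.at_one]

theorem good_arith {q₁ q₂ : ℕ} (hp₁ : Fact q₁.Prime) (hp₂ : Fact q₂.Prime) {a d : ℤ}
    (h₁ : q₁ % 4 = 3) (h₂ : q₂ % 4 = 3) (hd : d.natAbs % 4 = 3) (had : a * d - q₂ * q₁ = 1)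
    (hcop : Nat.Coprime (q₁ / 2) (q₂ / 2)) :
    Good !![a, (q₂ : ℤ); (q₁ : ℤ), d] := by
  have key := legendre_product hp₁ hp₂ h₁ h₂ hd had
  have k₁ := legendre_ne_zero hp₁ had
  have k₂ := legendre_ne_zero hp₂ (a := a) (d := d) (m := q₁) (by linear_combination had)
  rcases Int.mul_eq_one_iff_eq_one_or_neg_one.mp k₁ with ⟨ha, hb⟩ | ⟨ha, hb⟩
  · have hl : legendreSym q₂ d = -1 := by rw [hb, one_mul] at key; exact key
    have hl2 : legendreSym q₂ a = -1 := by rw [hl] at k₂; linarith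
    exact caseA hp₁ hp₂ had (by rw [Nat.odd_iff]; omega) hcop ha hl2
  · have hl : legendreSym q₂ d = 1 := by rw [hb] at key; linarith
    have := caseA hp₂ hp₁ (a := d) (d := a) (by linear_combination had)
      (by rw [Nat.odd_iff]; omega) hcop.symm hl hb
    have hJ : (!![0, 1; 1, 0] : Matrix (Fin 2) (Fin 2) ℤ) * !![0, 1; 1, 0] = 1 := by
      ext i j
      fin_cases i <;> fin_cases j <;> simp
    have h5 := this.conj hJ
    convert h5 using 1
    ext i j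
    fin_cases i <;> fin_cases j <;> simp

theorem step4 {q : ℕ} (hp : Fact q.Prime) (hq : q % 4 = 3) {a b d : ℤ}
    (hd : d.natAbs % 4 = 3) (had : a * d - b * q = 1) :
    ∃ x : ℤ, Good !![a + x * q, b + x * d; (q : ℤ), d] := by
  classical
  set R : ℕ := ∏ ℓ ∈ (q - 1).primeFactors.filter (fun ℓ => ¬ ℓ ∣ 2 * d.natAbs), ℓ with hR
  have hdodd : Nat.Coprime 4 d.natAbs := by
    rw [show (4 : ℕ) = 2 ^ 2 by norm_num]
    apply Nat.Coprime.pow_left
    rw [Nat.coprime_two_left, Nat.odd_iff]; omega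
  have hRd : Nat.Coprime R d.natAbs := by
    rw [hR]
    apply Nat.Coprime.prod_left
    intro ℓ hℓ
    rw [Finset.mem_filter, Nat.mem_primeFactors] at hℓ
    rw [hℓ.1.1.coprime_iff_not_dvd]
    intro h
    exact hℓ.2 (h.mul_left 2)
  have hRpos : 0 < R := by
    apply Finset.prod_pos
    intro ℓ hℓ
    rw [Finset.mem_filter, Nat.mem_primeFactors] at hℓ
    exact hℓ.1.1.pos
  have hcopN : Nat.Coprime (4 * R) d.natAbs := Nat.Coprime.mul_left hdodd hRd
  have hcopZ : IsCoprime ((4 * R : ℕ) : ℤ) d := by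
    have := Nat.isCoprime_iff_coprime.mpr hcopN
    exact IsCoprime.of_isCoprime_of_dvd_right this (by rw [Int.dvd_natAbs])
  obtain ⟨v, u, huv⟩ := hcopZ
  have hd0 : d.natAbs ≠ 0 := by omega
  have hbs1 : IsCoprime (b * v * ((4 * R : ℕ) : ℤ) - u * d) d := by
    refine ⟨-(q : ℤ), a - q * (b * u + u), ?_⟩
    linear_combination had + (-b * q) * huv
  have hbs2 : IsCoprime (b * v * ((4 * R : ℕ) : ℤ) - u * d) ((4 * R : ℕ) : ℤ) := by
    refine ⟨-1, v + b * v, ?_⟩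
    linear_combination huv
  have hbs : IsCoprime (b * v * ((4 * R : ℕ) : ℤ) - u * d) ((d.natAbs * (4 * R) : ℕ) : ℤ) := by
    rw [Nat.cast_mul d.natAbs]
    apply IsCoprime.mul_right _ hbs2
    exact IsCoprime.of_isCoprime_of_dvd_right hbs1 (by rw [Int.natAbs_dvd])
  obtain ⟨q₂, -, hq₂, hmod⟩ := Nat.forall_exists_prime_gt_and_zmodEq 0
    (q := d.natAbs * (4 * R)) (by positivity) hbs
  replace hmod := Int.modEq_iff_dvd.mp hmod.symm
  have hm1 : d ∣ (q₂ : ℤ) - b := by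
    have h1 : d ∣ (q₂ : ℤ) - (b * v * ((4 * R : ℕ) : ℤ) - u * d) := by
      refine dvd_trans ?_ hmod
      rw [Nat.cast_mul]
      exact Dvd.dvd.mul_right (by rw [Int.dvd_natAbs]) _
    have h2 : (q₂ : ℤ) - b = ((q₂ : ℤ) - (b * v * ((4 * R : ℕ) : ℤ) - u * d)) +
        d * (-(b + 1) * u) := by
      linear_combination b * huv
    rw [h2]
    exact dvd_add h1 (dvd_mul_right _ _)
  have hm2 : ((4 * R : ℕ) : ℤ) ∣ (q₂ : ℤ) + 1 := by
    have h1 : ((4 * R : ℕ) : ℤ) ∣ (q₂ : ℤ) - (b * v * ((4 * R : ℕ) : ℤ) - u * d) := by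
      refine dvd_trans ?_ hmod
      rw [Nat.cast_mul d.natAbs]
      exact dvd_mul_left _ _
    have h2 : (q₂ : ℤ) + 1 = ((q₂ : ℤ) - (b * v * ((4 * R : ℕ) : ℤ) - u * d)) +
        ((4 * R : ℕ) : ℤ) * ((b + 1) * v) := by
      linear_combination -huv
    rw [h2]
    exact dvd_add h1 (dvd_mul_right _ _)
  obtain ⟨x, hx⟩ := hm1
  have hbx : b + x * d = q₂ := by linear_combination -hx
  have hq₂4 : q₂ % 4 = 3 := by
    have : (4 : ℤ) ∣ (q₂ : ℤ) + 1 := dvd_trans ⟨R, by push_cast; ring⟩ hm2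
    omega
  have hdet : (a + x * q) * d - q₂ * q = 1 := by
    rw [← hbx]; linear_combination had
  refine ⟨x, ?_⟩
  rw [hbx]
  apply good_arith hp ⟨hq₂⟩ hq hq₂4 hd hdet
  -- coprimality
  rw [Nat.coprime_iff_gcd_eq_one]
  by_contra hne
  obtain ⟨ℓ, hℓ, hdvd⟩ := Nat.exists_prime_and_dvd hne
  have h1 : ℓ ∣ q / 2 := dvd_trans hdvd (Nat.gcd_dvd_left _ _)
  have h2 : ℓ ∣ q₂ / 2 := dvd_trans hdvd (Nat.gcd_dvd_right _ _)
  have h2' : ℓ ≠ 2 := by
    rintro rfl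
    omega
  have h1q : ℓ ∣ q - 1 := by
    have : q - 1 = 2 * (q / 2) := by omega
    rw [this]; exact h1.mul_left 2
  have h2q : ℓ ∣ q₂ - 1 := by
    have : q₂ - 1 = 2 * (q₂ / 2) := by omega
    rw [this]; exact h2.mul_left 2
  have h1z : (ℓ : ℤ) ∣ (q : ℤ) - 1 := by
    have h := Int.natCast_dvd_natCast.mpr h1q
    rwa [Nat.cast_sub (by omega), Nat.cast_one] at h
  have h2z : (ℓ : ℤ) ∣ (q₂ : ℤ) - 1 := by
    have h := Int.natCast_dvd_natCast.mpr h2q
    rwa [Nat.cast_sub (by omega), Nat.cast_one] at h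
  have htwo : (ℓ : ℤ) ∣ 2 := by
    by_cases hℓd : ℓ ∣ d.natAbs
    · have h3 : (ℓ : ℤ) ∣ d := Int.natCast_dvd.mpr hℓd
      obtain ⟨r1, e1⟩ := h1z
      obtain ⟨r2, e2⟩ := h2z
      obtain ⟨r3, e3⟩ := h3
      refine ⟨(a + x * q) * r3 - r2 * q - r1, ?_⟩
      linear_combination -hdet + (a + x * q) * e3 - q * e2 - e1
    · have h3 : ℓ ∣ R := by
        rw [hR]
        apply Finset.dvd_prod_of_mem
        rw [Finset.mem_filter, Nat.mem_primeFactors]
        refine ⟨⟨hℓ, h1q, by omega⟩, ?_⟩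
        intro h
        rcases (hℓ.dvd_mul).mp h with h | h
        · exact h2' ((Nat.prime_dvd_prime_iff_eq hℓ Nat.prime_two).mp h)
        · exact hℓd h
      have h4 : (ℓ : ℤ) ∣ (q₂ : ℤ) + 1 :=
        dvd_trans (Int.natCast_dvd_natCast.mpr (h3.mul_left 4)) hm2
      have h5 := dvd_sub h4 h2z
      have h6 : (q₂ : ℤ) + 1 - (q₂ - 1) = 2 := by ring
      rwa [h6] at h5
  have : ℓ ∣ 2 := by exact_mod_cast htwo
  exact h2' ((Nat.prime_dvd_prime_iff_eq hℓ Nat.prime_two).mp this)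

end Pool.Agent.H370.UL
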