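import Mathlib

/-!
Unitriangular integer matrices on a finite index type ordered by an injective rank function.
-/

namespace Pool.Agent.H370.UL

open Matrix

variable {ι κ : Type*} [Fintype ι] [DecidableEq ι] [Fintype κ] [DecidableEq κ]

/-- Upper unitriangular with respect to the rank function `b` (and of determinant one). -/
def Up (b : ι → ℕ) (M : Matrix ι ι ℤ) : Prop :=
  M.det = 1 ∧ (∀ i, M i i = 1) ∧ ∀ i j, b j < b i → M i j = 0

/-- Lower unitriangular with respect to the rank function `b` (and of determinant one). -/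
def Lo (b : ι → ℕ) (M : Matrix ι ι ℤ) : Prop :=
  M.det = 1 ∧ (∀ i, M i i = 1) ∧ ∀ i j, b i < b j → M i j = 0

theorem Lo.transpose {b : ι → ℕ} {M : Matrix ι ι ℤ} (h : Lo b M) : Up b Mᵀ :=
  ⟨by rw [det_transpose]; exact h.1, fun i => h.2.1 i, fun i j hij => h.2.2 j i hij⟩

theorem Up.transpose {b : ι → ℕ} {M : Matrix ι ι ℤ} (h : Up b M) : Lo b Mᵀ :=
  ⟨by rw [det_transpose]; exact h.1, fun i => h.2.1 i, fun i j hij => h.2.2 j i hij⟩

theorem Up.mul {b : ι → ℕ} (hb : Function.Injective b) {M N : Matrix ι ι ℤ}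
    (hM : Up b M) (hN : Up b N) : Up b (M * N) := by
  refine ⟨by rw [det_mul, hM.1, hN.1, one_mul], ?_, ?_⟩
  · intro i
    rw [Matrix.mul_apply, Finset.sum_eq_single i]
    · rw [hM.2.1, hN.2.1, one_mul]
    · intro k _ hk
      rcases lt_trichotomy (b k) (b i) with h | h | h
      · rw [hM.2.2 i k h, zero_mul]
      · exact absurd (hb h) hk
      · rw [hN.2.2 k i h, mul_zero]
    · intro h; exact absurd (Finset.mem_univ i) h
  · intro i j hij
    rw [Matrix.mul_apply]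
    apply Finset.sum_eq_zero
    intro k _
    rcases lt_or_ge (b k) (b i) with h | h
    · rw [hM.2.2 i k h, zero_mul]
    · rw [hN.2.2 k j (lt_of_lt_of_le hij h), mul_zero]

theorem Lo.mul {b : ι → ℕ} (hb : Function.Injective b) {M N : Matrix ι ι ℤ}
    (hM : Lo b M) (hN : Lo b N) : Lo b (M * N) := by
  have := (hN.transpose.mul hb hM.transpose).transpose
  rwa [← Matrix.transpose_mul, Matrix.transpose_transpose] at this

theorem up_one (b : ι → ℕ) : Up b (1 : Matrix ι ι ℤ) := by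
  refine ⟨det_one, fun i => Matrix.one_apply_eq i, fun i j hij => ?_⟩
  apply Matrix.one_apply_ne
  rintro rfl
  exact lt_irrefl _ hij

theorem lo_one (b : ι → ℕ) : Lo b (1 : Matrix ι ι ℤ) := by
  refine ⟨det_one, fun i => Matrix.one_apply_eq i, fun i j hij => ?_⟩
  apply Matrix.one_apply_ne
  rintro rfl
  exact lt_irrefl _ hij

theorem Up.reindex {b : ι → ℕ} (e : κ ≃ ι) {M : Matrix ι ι ℤ} (h : Up b M) :
    Up (b ∘ e) (M.submatrix e e) :=
  ⟨by rw [det_submatrix_equiv_self]; exact h.1, fun i => h.2.1 _, fun i j hij => h.2.2 _ _ hij⟩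

theorem Lo.reindex {b : ι → ℕ} (e : κ ≃ ι) {M : Matrix ι ι ℤ} (h : Lo b M) :
    Lo (b ∘ e) (M.submatrix e e) :=
  ⟨by rw [det_submatrix_equiv_self]; exact h.1, fun i => h.2.1 _, fun i j hij => h.2.2 _ _ hij⟩

/-- A product of lower, upper, lower, upper unitriangular matrices. -/
def LULU (b : ι → ℕ) (M : Matrix ι ι ℤ) : Prop :=
  ∃ l u l' u', Lo b l ∧ Up b u ∧ Lo b l' ∧ Up b u' ∧ M = l * u * l' * u'

/-- A product of six unitriangular matrices, alternating upper and lower. -/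
def Six (b : ι → ℕ) (M : Matrix ι ι ℤ) : Prop :=
  ∃ u l u' l' u'' l'', Up b u ∧ Lo b l ∧ Up b u' ∧ Lo b l' ∧ Up b u'' ∧ Lo b l'' ∧
    M = u * l * u' * l' * u'' * l''

theorem LULU.reindex {b : ι → ℕ} (e : κ ≃ ι) {M : Matrix ι ι ℤ} (h : LULU b M) :
    LULU (b ∘ e) (M.submatrix e e) := by
  obtain ⟨l, u, l', u', h1, h2, h3, h4, rfl⟩ := h
  refine ⟨_, _, _, _, h1.reindex e, h2.reindex e, h3.reindex e, h4.reindex e, ?_⟩
  simp only [Matrix.submatrix_mul_equiv]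

theorem Six.reindex {b : ι → ℕ} (e : κ ≃ ι) {M : Matrix ι ι ℤ} (h : Six b M) :
    Six (b ∘ e) (M.submatrix e e) := by
  obtain ⟨l, u, l', u', l'', u'', h1, h2, h3, h4, h5, h6, rfl⟩ := h
  refine ⟨_, _, _, _, _, _, h1.reindex e, h2.reindex e, h3.reindex e, h4.reindex e,
    h5.reindex e, h6.reindex e, ?_⟩
  simp only [Matrix.submatrix_mul_equiv]

/-! ### Block matrices -/

/-- Rank functions on a sum type compatible with those of the summands. -/
structure SumRank (b1 : ι → ℕ) (b2 : κ → ℕ) (b : ι ⊕ κ → ℕ) : Prop where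
  inl : ∀ i j, b (Sum.inl i) < b (Sum.inl j) → b1 i < b1 j
  inr : ∀ i j, b (Sum.inr i) < b (Sum.inr j) → b2 i < b2 j
  lt : ∀ i j, b (Sum.inl i) < b (Sum.inr j)

theorem Up.blocks {b1 : ι → ℕ} {b2 : κ → ℕ} {b : ι ⊕ κ → ℕ} (hb : SumRank b1 b2 b)
    {P : Matrix ι ι ℤ} {S : Matrix κ κ ℤ} (hP : Up b1 P) (hS : Up b2 S) (Z : Matrix ι κ ℤ) :
    Up b (fromBlocks P Z 0 S) := by
  refine ⟨by rw [det_fromBlocks_zero₂₁, hP.1, hS.1, one_mul], ?_, ?_⟩
  · rintro (i | i)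
    · exact hP.2.1 i
    · exact hS.2.1 i
  · rintro (i | i) (j | j) hij
    · exact hP.2.2 i j (hb.inl _ _ hij)
    · exact absurd (hb.lt i j) (not_lt.mpr hij.le)
    · rfl
    · exact hS.2.2 i j (hb.inr _ _ hij)

theorem Lo.blocks {b1 : ι → ℕ} {b2 : κ → ℕ} {b : ι ⊕ κ → ℕ} (hb : SumRank b1 b2 b)
    {P : Matrix ι ι ℤ} {S : Matrix κ κ ℤ} (hP : Lo b1 P) (hS : Lo b2 S) (Z : Matrix κ ι ℤ) :
    Lo b (fromBlocks P 0 Z S) := by
  refine ⟨by rw [det_fromBlocks_zero₁₂, hP.1, hS.1, one_mul], ?_, ?_⟩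
  · rintro (i | i)
    · exact hP.2.1 i
    · exact hS.2.1 i
  · rintro (i | i) (j | j) hij
    · exact hP.2.2 i j (hb.inl _ _ hij)
    · rfl
    · exact absurd (hb.lt j i) (not_lt.mpr hij.le)
    · exact hS.2.2 i j (hb.inr _ _ hij)

/-- Block upper unipotent. -/
def EU (Z : Matrix ι κ ℤ) : Matrix (ι ⊕ κ) (ι ⊕ κ) ℤ := fromBlocks 1 Z 0 1

/-- Block lower unipotent. -/
def EL (Z : Matrix κ ι ℤ) : Matrix (ι ⊕ κ) (ι ⊕ κ) ℤ := fromBlocks 1 0 Z 1

/-- Sandwiching a block diagonal matrix with `LULU` blocks. -/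
theorem LULU.sandwich {b1 : ι → ℕ} {b2 : κ → ℕ} {b : ι ⊕ κ → ℕ} (hb : SumRank b1 b2 b)
    {P : Matrix ι ι ℤ} {S : Matrix κ κ ℤ} (hP : LULU b1 P) (hS : LULU b2 S)
    (X : Matrix κ ι ℤ) (Z : Matrix ι κ ℤ) (W : Matrix κ ι ℤ) (Y : Matrix ι κ ℤ) :
    LULU b (EL X * EU Z * fromBlocks P 0 0 S * EL W * EU Y) := by
  obtain ⟨l, u, l', u', h1, h2, h3, h4, rfl⟩ := hP
  obtain ⟨m, v, m', v', g1, g2, g3, g4, rfl⟩ := hS
  have hl : l * l⁻¹ = 1 := Matrix.mul_nonsing_inv _ (by rw [h1.1]; exact isUnit_one)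
  have hv : v' * v'⁻¹ = 1 := Matrix.mul_nonsing_inv _ (by rw [g4.1]; exact isUnit_one)
  have hv' : v'⁻¹ * v' = 1 := Matrix.nonsing_inv_mul _ (by rw [g4.1]; exact isUnit_one)
  refine ⟨fromBlocks l 0 (X * l) m, fromBlocks u (l⁻¹ * Z * m * v) 0 v,
    fromBlocks l' 0 (m' * (v' * W * u'⁻¹)) m', fromBlocks u' (u' * Y) 0 v',
    Lo.blocks hb h1 g1 _, Up.blocks hb h2 g2 _, Lo.blocks hb h3 g3 _, Up.blocks hb h4 g4 _, ?_⟩
  have hu : u'⁻¹ * u' = 1 := Matrix.nonsing_inv_mul _ (by rw [h4.1]; exact isUnit_one)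
  have e1 : EL X * EU Z * fromBlocks (l * u * l' * u') 0 0 (m * v * m' * v') * EL W * EU Y =
      EL X * EU Z * (fromBlocks l 0 0 m * fromBlocks u 0 0 v * fromBlocks l' 0 0 m' *
        fromBlocks u' 0 0 v') * EL W * EU Y := by
    simp only [fromBlocks_multiply, Matrix.mul_zero, Matrix.zero_mul, add_zero, zero_add]
  have e2 : EU Z * fromBlocks l 0 0 m = fromBlocks l 0 0 m * EU (l⁻¹ * Z * m) := by
    simp only [EU, fromBlocks_multiply, Matrix.mul_zero, Matrix.zero_mul, add_zero, zero_add,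
      Matrix.one_mul, Matrix.mul_one]
    rw [← Matrix.mul_assoc, ← Matrix.mul_assoc, hl, Matrix.one_mul]
  have e3 : fromBlocks u' 0 0 v' * EL W = EL (v' * W * u'⁻¹) * fromBlocks u' 0 0 v' := by
    simp only [EL, fromBlocks_multiply, Matrix.mul_zero, Matrix.zero_mul, add_zero, zero_add,
      Matrix.one_mul, Matrix.mul_one]
    rw [Matrix.mul_assoc (v' * W), hu, Matrix.mul_one]
  have e4 : EL X * EU Z * (fromBlocks l 0 0 m * fromBlocks u 0 0 v * fromBlocks l' 0 0 m' *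
        fromBlocks u' 0 0 v') * EL W * EU Y = EL X * fromBlocks l 0 0 m *
        (EU (l⁻¹ * Z * m) * fromBlocks u 0 0 v) * (fromBlocks l' 0 0 m' * EL (v' * W * u'⁻¹)) *
        (fromBlocks u' 0 0 v' * EU Y) := by
    calc _ = EL X * (EU Z * fromBlocks l 0 0 m) * fromBlocks u 0 0 v * fromBlocks l' 0 0 m' *
        (fromBlocks u' 0 0 v' * EL W) * EU Y := by simp only [Matrix.mul_assoc]
      _ = _ := by rw [e2, e3]; simp only [Matrix.mul_assoc]
  rw [e1, e4]
  congr 1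
  · congr 1
    · congr 1
      · simp only [EL, fromBlocks_multiply, Matrix.mul_zero, Matrix.zero_mul, add_zero, zero_add,
          Matrix.one_mul, Matrix.mul_one]
      · simp only [EU, fromBlocks_multiply, Matrix.mul_zero, Matrix.zero_mul, add_zero, zero_add,
          Matrix.one_mul, Matrix.mul_one]
    · simp only [EL, fromBlocks_multiply, Matrix.mul_zero, Matrix.zero_mul, add_zero, zero_add,
          Matrix.one_mul, Matrix.mul_one]
  · simp only [EU, fromBlocks_multiply, Matrix.mul_zero, Matrix.zero_mul, add_zero, zero_add,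
          Matrix.one_mul, Matrix.mul_one]

end Pool.Agent.H370.UL
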