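import Pool.Agent.H370.UL.Basic

namespace Pool.Agent.H370.UL

open Matrix

variable {ι κ : Type*} [Fintype ι] [DecidableEq ι] [Fintype κ] [DecidableEq κ]

theorem LULU.det {b : ι → ℕ} {M : Matrix ι ι ℤ} (h : LULU b M) : M.det = 1 := by
  obtain ⟨l, u, l', u', h1, h2, h3, h4, rfl⟩ := h
  rw [det_mul, det_mul, det_mul, h1.1, h2.1, h3.1, h4.1]; norm_num

theorem inv_mul' {M : Matrix ι ι ℤ} (h : M.det = 1) : M⁻¹ * M = 1 :=
  Matrix.nonsing_inv_mul _ (by rw [h]; exact isUnit_one)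

theorem mul_inv' {M : Matrix ι ι ℤ} (h : M.det = 1) : M * M⁻¹ = 1 :=
  Matrix.mul_nonsing_inv _ (by rw [h]; exact isUnit_one)

/-- `E = 1 + Y X` where the exchanged product `1 + X Y` is in `LULU`. -/
def Half (E : Matrix (Fin 2) (Fin 2) ℤ) : Prop :=
  ∃ Y X : Matrix (Fin 2) (Fin 2) ℤ, E = 1 + Y * X ∧ LULU Fin.val (1 + X * Y)

/-- A product of two `Half` matrices. -/
def Good (G : Matrix (Fin 2) (Fin 2) ℤ) : Prop :=
  ∃ C₂ C₁ : Matrix (Fin 2) (Fin 2) ℤ, G = C₂ * C₁ ∧ Half C₂ ∧ Half C₁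

theorem Half.conj {E P Q : Matrix (Fin 2) (Fin 2) ℤ} (hPQ : P * Q = 1) (h : Half E) :
    Half (P * E * Q) := by
  obtain ⟨Y, X, rfl, h⟩ := h
  have hQP : Q * P = 1 := mul_eq_one_comm.mp hPQ
  refine ⟨P * Y, X * Q, ?_, ?_⟩
  · rw [Matrix.mul_add, Matrix.add_mul, Matrix.mul_one, hPQ]
    simp only [Matrix.mul_assoc]
  · have : X * Q * (P * Y) = X * (Q * P) * Y := by simp only [Matrix.mul_assoc]
    rw [this, hQP, Matrix.mul_one]; exact h

theorem Good.conj {G P Q : Matrix (Fin 2) (Fin 2) ℤ} (hPQ : P * Q = 1) (h : Good G) :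
    Good (P * G * Q) := by
  obtain ⟨C₂, C₁, rfl, h2, h1⟩ := h
  have hQP : Q * P = 1 := mul_eq_one_comm.mp hPQ
  refine ⟨P * C₂ * Q, P * C₁ * Q, ?_, h2.conj hPQ, h1.conj hPQ⟩
  have : P * C₂ * Q * (P * C₁ * Q) = P * C₂ * (Q * P) * C₁ * Q := by simp only [Matrix.mul_assoc]
  rw [this, hQP, Matrix.mul_one]
  simp only [Matrix.mul_assoc]

/-- The rank function on `Fin 2 ⊕ Fin 2`. -/
def b4 : Fin 2 ⊕ Fin 2 → ℕ := Sum.elim Fin.val (fun j => 2 + j.val)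

/-- The rank function on `Fin 2 ⊕ (Fin 2 ⊕ Fin 2)`. -/
def b6 : Fin 2 ⊕ (Fin 2 ⊕ Fin 2) → ℕ := Sum.elim Fin.val (fun j => 2 + b4 j)

theorem sumRank4 : SumRank Fin.val Fin.val b4 where
  inl i j h := h
  inr i j h := by simpa [b4] using h
  lt i j := by simp only [b4, Sum.elim_inl, Sum.elim_inr]; omega

theorem sumRank6 : SumRank Fin.val b4 b6 where
  inl i j h := h
  inr i j h := by simpa [b6] using h
  lt i j := by simp only [b6, Sum.elim_inl, Sum.elim_inr]; omega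

theorem Good.exchange {G : Matrix (Fin 2) (Fin 2) ℤ} (h : Good G) :
    ∃ (Y : Matrix (Fin 2) (Fin 2 ⊕ Fin 2) ℤ) (X : Matrix (Fin 2 ⊕ Fin 2) (Fin 2) ℤ),
      G = 1 + Y * X ∧ LULU b4 (1 + X * Y) := by
  obtain ⟨C₂, C₁, rfl, ⟨Y₂, X₂, rfl, h2⟩, ⟨Y₁, X₁, rfl, h1⟩⟩ := h
  refine ⟨fromCols Y₁ Y₂, fromRows X₁ (X₂ * (1 + Y₁ * X₁)), ?_, ?_⟩
  · rw [fromCols_mul_fromRows]
    noncomm_ring
  · have key := LULU.sandwich sumRank4 h1 h2 (X₂ * Y₁) 0 0 ((1 + X₁ * Y₁)⁻¹ * (X₁ * Y₂))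
    have hd := mul_inv' h1.det
    convert key using 1
    rw [← fromBlocks_one, fromRows_mul_fromCols, fromBlocks_add]
    simp only [EL, EU, fromBlocks_multiply, Matrix.mul_zero, Matrix.zero_mul, add_zero, zero_add,
      Matrix.one_mul, Matrix.mul_one]
    rw [← Matrix.mul_assoc, ← Matrix.mul_assoc _ (1 + X₁ * Y₁)⁻¹, Matrix.mul_assoc _ _ (1 + X₁ * Y₁)⁻¹,
      hd, Matrix.one_mul]
    congr 1
    · noncomm_ring
    · noncomm_ring

/-- The block lemma. -/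
theorem block_lemma {B G N N' : Matrix (Fin 2) (Fin 2) ℤ} (hB : B.det = 1) (hN : N' * N = 1)
    (hN' : LULU Fin.val N') (hG : N * B = G) (h : Good G) :
    LULU b6 (fromBlocks B 0 0 1) := by
  obtain ⟨Y, X, hG', hS⟩ := h.exchange
  set S := 1 + X * Y with hSdef
  have hSd := mul_inv' hS.det
  have hSd' := inv_mul' hS.det
  have hBd := inv_mul' hB
  have hNG : N' * G = B := by rw [← hG, ← Matrix.mul_assoc, hN, Matrix.one_mul]
  have hdG : G.det = 1 := by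
    have h1 := congrArg Matrix.det hNG
    rw [det_mul, hN'.det, hB, one_mul] at h1
    exact h1
  have hGd := mul_inv' hdG
  have hkey : N' + B * Y * S⁻¹ * X = B := by
    have h1 : (B - B * Y * S⁻¹ * X) * G = B := by
      have h2 : X * G = S * X := by 
        rw [hG', hSdef, Matrix.mul_add, Matrix.add_mul, Matrix.mul_one, Matrix.one_mul,
          Matrix.mul_assoc]
      rw [Matrix.sub_mul, Matrix.mul_assoc _ X G, h2, ← Matrix.mul_assoc _ S X,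
        Matrix.mul_assoc _ _ S, hSd', Matrix.mul_one, hG', Matrix.mul_add, Matrix.mul_one,
        Matrix.mul_assoc]
      abel
    have h3 : B - B * Y * S⁻¹ * X = N' := by
      have h4 : (B - B * Y * S⁻¹ * X) * G = N' * G := by rw [h1, hNG]
      have h5 := congrArg (fun M => M * G⁻¹) h4
      simp only [Matrix.mul_assoc, hGd, Matrix.mul_one] at h5
      simpa [Matrix.mul_assoc] using h5
    rw [← h3]; abel
  have key := LULU.sandwich sumRank6 hN' hS (-(X * B⁻¹)) (B * Y * S⁻¹) (S⁻¹ * X) (-Y)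
  convert key using 1
  simp only [EL, EU, fromBlocks_multiply, Matrix.mul_zero, Matrix.zero_mul, add_zero, zero_add,
      Matrix.one_mul, Matrix.mul_one]
  have a1 : B * Y * S⁻¹ * S = B * Y := by rw [Matrix.mul_assoc, hSd', Matrix.mul_one]
  have a2 : -(X * B⁻¹) * B = -X := by rw [Matrix.neg_mul, Matrix.mul_assoc, hBd, Matrix.mul_one]
  have a3 : S * (S⁻¹ * X) = X := by rw [← Matrix.mul_assoc, hSd, Matrix.one_mul]
  have a4 : B * Y * (S⁻¹ * X) = B * Y * S⁻¹ * X := by rw [← Matrix.mul_assoc]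
  have a5 : X * B⁻¹ * B = X := by rw [Matrix.mul_assoc, hBd, Matrix.mul_one]
  have a6 : X * B⁻¹ * (B * Y) = X * Y := by rw [← Matrix.mul_assoc, a5]
  have p11 : N' + B * Y * S⁻¹ * S * (S⁻¹ * X) = B := by rw [a1, a4, hkey]
  have a7 : X * B⁻¹ * (B * Y * S⁻¹) = X * Y * S⁻¹ := by
    rw [Matrix.mul_assoc B, ← Matrix.mul_assoc, a5, Matrix.mul_assoc]
  have hN'' : N' = B - B * Y * S⁻¹ * X := by
    rw [eq_sub_iff_add_eq]; exact hkey
  have a8 : X * B⁻¹ * N' = X - X * Y * S⁻¹ * X := by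
    rw [hN'', Matrix.mul_sub, a5, ← Matrix.mul_assoc, a7]
  have a9 : X * Y * S⁻¹ * S = X * Y := by rw [Matrix.mul_assoc, hSd', Matrix.mul_one]
  have p21 : -(X * B⁻¹) * N' + (-(X * B⁻¹) * (B * Y * S⁻¹) + 1) * S * (S⁻¹ * X) = 0 := by
    rw [Matrix.neg_mul, Matrix.neg_mul, a7, a8, Matrix.mul_assoc (-(X * Y * S⁻¹) + 1), a3,
      Matrix.add_mul, Matrix.one_mul, Matrix.neg_mul]
    abel
  rw [p11, p21, Matrix.zero_mul, zero_add, Matrix.neg_mul, a7, Matrix.add_mul, Matrix.one_mul,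
    Matrix.neg_mul, a9, a1, Matrix.mul_neg]
  congr 1
  · abel
  · rw [hSdef]; abel

end Pool.Agent.H370.UL
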