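import Pool.Agent.H370.UL.Red

namespace Pool.Agent.H370.UL

open Matrix

variable {ι : Type*} [Fintype ι] [DecidableEq ι]

/-- Rank on the one point type. -/
def b0 : Fin 1 → ℕ := Fin.val

theorem up_EU {b1 : ι → ℕ} {b : ι ⊕ Fin 1 → ℕ} (hb : SumRank b1 b0 b) {u : Matrix ι ι ℤ}
    (hu : Up b1 u) (y : Matrix ι (Fin 1) ℤ) : Up b (EU y * fromBlocks u 0 0 1) := by
  have h := Up.blocks hb hu (up_one b0) y
  convert h using 1
  simp only [EU, fromBlocks_multiply, Matrix.mul_zero, Matrix.zero_mul, add_zero, zero_add,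
      Matrix.one_mul, Matrix.mul_one]

theorem up_EU' {b1 : ι → ℕ} {b : ι ⊕ Fin 1 → ℕ} (hb : SumRank b1 b0 b) {u : Matrix ι ι ℤ}
    (hu : Up b1 u) (y : Matrix ι (Fin 1) ℤ) : Up b (fromBlocks u 0 0 1 * EU y) := by
  have h := Up.blocks hb hu (up_one b0) (u * y)
  convert h using 1
  simp only [EU, fromBlocks_multiply, Matrix.mul_zero, Matrix.zero_mul, add_zero, zero_add,
      Matrix.one_mul, Matrix.mul_one]

theorem lo_EL {b1 : ι → ℕ} {b : ι ⊕ Fin 1 → ℕ} (hb : SumRank b1 b0 b) {u : Matrix ι ι ℤ}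
    (hu : Lo b1 u) (y : Matrix (Fin 1) ι ℤ) : Lo b (fromBlocks u 0 0 1 * EL y) := by
  have h := Lo.blocks hb hu (lo_one b0) y
  convert h using 1
  simp only [EL, fromBlocks_multiply, Matrix.mul_zero, Matrix.zero_mul, add_zero, zero_add,
      Matrix.one_mul, Matrix.mul_one]

theorem lo_EL' {b1 : ι → ℕ} {b : ι ⊕ Fin 1 → ℕ} (hb : SumRank b1 b0 b) {u : Matrix ι ι ℤ}
    (hu : Lo b1 u) (y : Matrix (Fin 1) ι ℤ) : Lo b (EL y * fromBlocks u 0 0 1) := by
  have h := Lo.blocks hb hu (lo_one b0) (y * u)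
  convert h using 1
  simp only [EL, fromBlocks_multiply, Matrix.mul_zero, Matrix.zero_mul, add_zero, zero_add,
      Matrix.one_mul, Matrix.mul_one]

theorem EL_comm (x : Matrix (Fin 1) ι ℤ) (u : Matrix ι ι ℤ) :
    EL x * fromBlocks u 0 0 1 = fromBlocks u 0 0 1 * EL (x * u) := by
  simp only [EL, fromBlocks_multiply, Matrix.mul_zero, Matrix.zero_mul, add_zero, zero_add,
      Matrix.one_mul, Matrix.mul_one]

theorem EU_comm (y : Matrix ι (Fin 1) ℤ) (l : Matrix ι ι ℤ) :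
    fromBlocks l 0 0 1 * EU y = EU (l * y) * fromBlocks l 0 0 1 := by
  simp only [EU, fromBlocks_multiply, Matrix.mul_zero, Matrix.zero_mul, add_zero, zero_add,
      Matrix.one_mul, Matrix.mul_one]

theorem blk_mul (u v : Matrix ι ι ℤ) : fromBlocks (u * v) 0 0 (1 : Matrix (Fin 1) (Fin 1) ℤ) =
    fromBlocks u 0 0 1 * fromBlocks v 0 0 1 := by
  simp only [fromBlocks_multiply, Matrix.mul_zero, Matrix.zero_mul, add_zero, zero_add,
      Matrix.mul_one]

/-- Passing from the sandwich of the smaller matrix to that of the larger one. -/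
theorem sandwich_step {b1 : ι → ℕ} {b : ι ⊕ Fin 1 → ℕ} (hb : SumRank b1 b0 b)
    {u l M u' l' : Matrix ι ι ℤ} (hu : Up b1 u) (hl : Lo b1 l) (hu' : Up b1 u') (hl' : Lo b1 l')
    (y v : Matrix ι (Fin 1) ℤ) (w x : Matrix (Fin 1) ι ℤ) :
    ∃ U L U' L', Up b U ∧ Lo b L ∧ Up b U' ∧ Lo b L' ∧
      EU y * EL w * fromBlocks (u * l * M * u' * l') 0 0 1 * EU v * EL x =
        U * L * fromBlocks M 0 0 1 * U' * L' := by
  refine ⟨EU y * fromBlocks u 0 0 1, EL (w * u) * fromBlocks l 0 0 1,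
    fromBlocks u' 0 0 1 * EU (l' * v), fromBlocks l' 0 0 1 * EL x,
    up_EU hb hu y, lo_EL' hb hl _, up_EU' hb hu' _, lo_EL hb hl' _, ?_⟩
  rw [blk_mul, blk_mul, blk_mul, blk_mul]
  calc EU y * EL w * (fromBlocks u 0 0 1 * fromBlocks l 0 0 1 * fromBlocks M 0 0 1 *
        fromBlocks u' 0 0 1 * fromBlocks l' 0 0 1) * EU v * EL x
      = EU y * (EL w * fromBlocks u 0 0 1) * fromBlocks l 0 0 1 * fromBlocks M 0 0 1 *
        fromBlocks u' 0 0 1 * (fromBlocks l' 0 0 1 * EU v) * EL x := by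
        simp only [Matrix.mul_assoc]
    _ = _ := by rw [EL_comm, EU_comm]; simp only [Matrix.mul_assoc]

/-- The rank function on `Fin 2 ⊕ Fin k`. -/
def bk (k : ℕ) : Fin 2 ⊕ Fin k → ℕ := Sum.elim Fin.val (fun j => 2 + j.val)

theorem bk_injective (k : ℕ) : Function.Injective (bk k) := by
  rintro (i | i) (j | j) h
  · simp only [bk, Sum.elim_inl] at h; rw [Fin.ext h]
  · simp only [bk, Sum.elim_inl, Sum.elim_inr] at h; omega
  · simp only [bk, Sum.elim_inl, Sum.elim_inr] at h; omega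
  · simp only [bk, Sum.elim_inr] at h; rw [Fin.ext (by omega : i.val = j.val)]

/-- The regrouping equivalence. -/
def eqv (k : ℕ) : (Fin 2 ⊕ Fin k) ⊕ Fin 1 ≃ Fin 2 ⊕ Fin (k + 1) :=
  (Equiv.sumAssoc _ _ _).trans (Equiv.sumCongr (Equiv.refl _) finSumFinEquiv)

theorem bk_eqv (k : ℕ) : SumRank (bk k) b0 (bk (k + 1) ∘ eqv k) where
  inl i j h := by
    rcases i with i | i <;> rcases j with j | j <;> simpa [bk, eqv] using h
  inr i j h := by simpa [bk, eqv, b0] using h
  lt i j := by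
    rcases i with i | i
    · simp only [bk, eqv, Function.comp_apply, Equiv.trans_apply, Equiv.sumAssoc_apply_inl_inl,
        Equiv.sumAssoc_apply_inr, Equiv.sumCongr_apply, Sum.map_inl, Sum.map_inr, Sum.elim_inl,
        Sum.elim_inr]
      have := i.2
      simp only [Equiv.refl_apply]
      omega
    · simp [bk, eqv]

theorem core (k : ℕ) : ∀ A : Matrix (Fin 2 ⊕ Fin k) (Fin 2 ⊕ Fin k) ℤ, A.det = 1 →
    ∃ (u l : Matrix (Fin 2 ⊕ Fin k) (Fin 2 ⊕ Fin k) ℤ) (B : Matrix (Fin 2) (Fin 2) ℤ)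
      (u' l' : Matrix (Fin 2 ⊕ Fin k) (Fin 2 ⊕ Fin k) ℤ), Up (bk k) u ∧ Lo (bk k) l ∧
      Up (bk k) u' ∧ Lo (bk k) l' ∧ B.det = 1 ∧ A = u * l * fromBlocks B 0 0 1 * u' * l' := by
  induction k with
  | zero =>
    intro A hA
    refine ⟨1, 1, A.toBlocks₁₁, 1, 1, up_one _, lo_one _, up_one _, lo_one _, ?_, ?_⟩
    · rw [← fromBlocks_toBlocks A] at hA
      have h0 : A.toBlocks₂₁ = 0 := Subsingleton.elim _ _
      have h1 : A.toBlocks₂₂ = 1 := Subsingleton.elim _ _
      rw [h0, h1, det_fromBlocks_zero₂₁, det_one, mul_one] at hA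
      exact hA
    · rw [Matrix.one_mul, Matrix.one_mul, Matrix.mul_one, Matrix.mul_one]
      conv_lhs => rw [← fromBlocks_toBlocks A]
      congr 1 <;> exact Subsingleton.elim _ _
  | succ k ih =>
    intro A hA
    obtain ⟨y, w, A', v, x, hA', hAeq⟩ := reduce (i₀ := (Sum.inl 0 : Fin 2 ⊕ Fin k))
      (i₁ := Sum.inl 1) (by simp) (A.submatrix (eqv k) (eqv k))
      (by rw [det_submatrix_equiv_self]; exact hA)
    obtain ⟨u, l, B, u', l', hu, hl, hu', hl', hB, rfl⟩ := ih A' hA'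
    obtain ⟨U, L, U', L', hU, hL, hU', hL', hEq⟩ := sandwich_step (bk_eqv k) hu hl hu' hl'
      (M := fromBlocks B 0 0 1) y v w x
    have hcomp : (bk (k + 1) ∘ eqv k) ∘ (eqv k).symm = bk (k + 1) := by
      funext i; simp
    refine ⟨U.submatrix (eqv k).symm (eqv k).symm, L.submatrix (eqv k).symm (eqv k).symm, B,
      U'.submatrix (eqv k).symm (eqv k).symm, L'.submatrix (eqv k).symm (eqv k).symm, ?_, ?_, ?_,
      ?_, hB, ?_⟩
    · rw [← hcomp]; exact hU.reindex _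
    · rw [← hcomp]; exact hL.reindex _
    · rw [← hcomp]; exact hU'.reindex _
    · rw [← hcomp]; exact hL'.reindex _
    · have h1 : A = (A.submatrix (eqv k) (eqv k)).submatrix (eqv k).symm (eqv k).symm := by
        rw [Matrix.submatrix_submatrix]; simp
      have h2 : (fromBlocks B 0 0 1 : Matrix (Fin 2 ⊕ Fin (k + 1)) (Fin 2 ⊕ Fin (k + 1)) ℤ) =
          (fromBlocks (fromBlocks B 0 0 1) 0 0 1 :
            Matrix ((Fin 2 ⊕ Fin k) ⊕ Fin 1) ((Fin 2 ⊕ Fin k) ⊕ Fin 1) ℤ).submatrix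
              (eqv k).symm (eqv k).symm := by
        have h3 : (fromBlocks B 0 0 1 : Matrix (Fin 2 ⊕ Fin (k + 1)) (Fin 2 ⊕ Fin (k + 1)) ℤ).submatrix
            (eqv k) (eqv k) = fromBlocks (fromBlocks B 0 0 1) 0 0 1 := by
          ext i j
          rcases i with (i | i) | i <;> rcases j with (j | j) | j <;>
            simp [eqv, Matrix.one_apply]
          all_goals
            intro h
            have := congrArg Fin.val h
            simp at this
            omega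
        rw [← h3, Matrix.submatrix_submatrix]; simp
      rw [h1, hAeq, hEq, h2]
      simp only [Matrix.submatrix_mul_equiv]

/-- The second regrouping equivalence. -/
def eqw (j : ℕ) : (Fin 2 ⊕ Fin 4) ⊕ Fin j ≃ Fin 2 ⊕ Fin (4 + j) :=
  (Equiv.sumAssoc _ _ _).trans (Equiv.sumCongr (Equiv.refl _) finSumFinEquiv)

theorem bk_eqw (j : ℕ) : SumRank (bk 4) Fin.val (bk (4 + j) ∘ eqw j) where
  inl a b h := by
    rcases a with i | i <;> rcases b with j | j <;> simpa [bk, eqw] using h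
  inr a b h := by simpa [bk, eqw] using h
  lt i j := by
    rcases i with i | i
    · simp only [bk, eqw, Function.comp_apply, Equiv.trans_apply, Equiv.sumAssoc_apply_inl_inl,
        Equiv.sumAssoc_apply_inr, Equiv.sumCongr_apply, Sum.map_inl, Sum.map_inr, Sum.elim_inl,
        Sum.elim_inr]
      have := i.2
      simp only [Equiv.refl_apply]
      omega
    · simp only [bk, eqw, Function.comp_apply, Equiv.trans_apply, Equiv.sumAssoc_apply_inl_inr,
        Equiv.sumAssoc_apply_inr, Equiv.sumCongr_apply, Sum.map_inr,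
        Sum.elim_inr, finSumFinEquiv_apply_left, finSumFinEquiv_apply_right]
      have := i.2
      simp
      omega

/-- The regrouping of the first six indices. -/
def eq46 : Fin 2 ⊕ Fin 4 ≃ Fin 2 ⊕ (Fin 2 ⊕ Fin 2) :=
  Equiv.sumCongr (Equiv.refl _) (finSumFinEquiv (m := 2) (n := 2)).symm

theorem b6_eq46 : b6 ∘ eq46 = bk 4 := by
  funext i
  rcases i with i | i
  · rfl
  · revert i; decide

theorem lulu4 {B : Matrix (Fin 2) (Fin 2) ℤ} (hB : B.det = 1) :
    LULU (bk 4) (fromBlocks B 0 0 1) := by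
  have h := (lulu6 hB).reindex eq46
  rw [b6_eq46] at h
  convert h using 1
  ext i j
  rcases i with i | i <;> rcases j with j | j <;> simp [eq46, Matrix.one_apply]

theorem lulu_all (j : ℕ) {B : Matrix (Fin 2) (Fin 2) ℤ} (hB : B.det = 1) :
    LULU (bk (4 + j)) (fromBlocks B 0 0 1) := by
  have h1 : LULU Fin.val (1 : Matrix (Fin j) (Fin j) ℤ) :=
    ⟨1, 1, 1, 1, lo_one _, up_one _, lo_one _, up_one _, by simp⟩
  have h := LULU.sandwich (bk_eqw j) (lulu4 hB) h1 0 0 0 0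
  have h2 := h.reindex (eqw j).symm
  have hcomp : (bk (4 + j) ∘ eqw j) ∘ (eqw j).symm = bk (4 + j) := by
    funext i; simp
  rw [hcomp] at h2
  convert h2 using 1
  have h3 : (fromBlocks B 0 0 1 : Matrix (Fin 2 ⊕ Fin (4 + j)) (Fin 2 ⊕ Fin (4 + j)) ℤ).submatrix
      (eqw j) (eqw j) = EL 0 * EU 0 * fromBlocks (fromBlocks B 0 0 1) 0 0 1 * EL 0 * EU 0 := by
    rw [show (EL (0 : Matrix (Fin j) (Fin 2 ⊕ Fin 4) ℤ)) = 1 from fromBlocks_one,
      show (EU (0 : Matrix (Fin 2 ⊕ Fin 4) (Fin j) ℤ)) = 1 from fromBlocks_one,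
      Matrix.one_mul, Matrix.one_mul, Matrix.mul_one, Matrix.mul_one]
    ext a b
    rcases a with (a | a) | a <;> rcases b with (b | b) | b <;> simp [eqw, Matrix.one_apply]
    all_goals
      intro h
      have := congrArg Fin.val h
      simp at this
      omega
  rw [← h3, Matrix.submatrix_submatrix]
  simp

theorem six_sum (j : ℕ) (A : Matrix (Fin 2 ⊕ Fin (4 + j)) (Fin 2 ⊕ Fin (4 + j)) ℤ)
    (hA : A.det = 1) : Six (bk (4 + j)) A := by
  obtain ⟨u, l, B, u', l', hu, hl, hu', hl', hB, rfl⟩ := core (4 + j) A hA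
  obtain ⟨m, v, m', v', hm, hv, hm', hv', hBe⟩ := lulu_all j hB
  refine ⟨u, l * m, v, m', v' * u', l', hu, hl.mul (bk_injective _) hm, hv, hm',
    hv'.mul (bk_injective _) hu', hl', ?_⟩
  rw [hBe]
  simp only [Matrix.mul_assoc]

theorem six_all {n : ℕ} (hn : 6 ≤ n) (A : Matrix (Fin n) (Fin n) ℤ) (hA : A.det = 1) :
    Six Fin.val A := by
  obtain ⟨j, rfl⟩ : ∃ j, n = 2 + (4 + j) := ⟨n - 6, by omega⟩
  have h := six_sum j (A.submatrix finSumFinEquiv finSumFinEquiv)
    (by rw [det_submatrix_equiv_self]; exact hA)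
  have h2 := h.reindex (finSumFinEquiv (m := 2) (n := 4 + j)).symm
  have hcomp : bk (4 + j) ∘ (finSumFinEquiv (m := 2) (n := 4 + j)).symm = Fin.val := by
    funext i
    obtain ⟨k, rfl⟩ := (finSumFinEquiv (m := 2) (n := 4 + j)).surjective i
    rcases k with k | k <;> simp [bk]
  rw [hcomp, Matrix.submatrix_submatrix] at h2
  simpa using h2

end Pool.Agent.H370.UL
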