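import Pool.Agent.H370.UL.Two

namespace Pool.Agent.H370.UL

open Matrix

/-- The underlying matrix. -/
def cm (g : SpecialLinearGroup (Fin 2) ℤ) : Matrix (Fin 2) (Fin 2) ℤ := g.1

theorem cm_mul (g h : SpecialLinearGroup (Fin 2) ℤ) : cm (g * h) = cm g * cm h := rfl

theorem cm_one : cm 1 = 1 := rfl

theorem cm_inv (g : SpecialLinearGroup (Fin 2) ℤ) : cm g⁻¹ = (cm g).adjugate := rfl

theorem cm_det (g : SpecialLinearGroup (Fin 2) ℤ) : (cm g).det = 1 := g.2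

/-- Integer powers of a matrix of determinant one are combinations of `1` and the matrix. -/
theorem zpow_form {a b c d : ℤ} (had : a * d - b * c = 1) (g : SpecialLinearGroup (Fin 2) ℤ)
    (hg : cm g = !![a, b; c, d]) (k : ℤ) :
    ∃ x y : ℤ, cm (g ^ k) = !![x + y * a, y * b; y * c, x + y * d] := by
  have hinv : cm g⁻¹ = !![d, -b; -c, a] := by
    rw [cm_inv, hg, Matrix.adjugate_fin_two_of]
  induction k using Int.induction_on with
  | zero =>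
    refine ⟨1, 0, ?_⟩
    rw [_root_.zpow_zero, cm_one]
    ext i j
    fin_cases i <;> fin_cases j <;> simp
  | succ k ih =>
    obtain ⟨x, y, h⟩ := ih
    refine ⟨-y, x + y * (a + d), ?_⟩
    rw [_root_.zpow_add_one, cm_mul, h, hg]
    ext i j
    fin_cases i <;> fin_cases j <;> simp [Matrix.mul_apply, Fin.sum_univ_two]
    · linear_combination (-y) * had
    · ring
    · ring
    · linear_combination (-y) * had
  | pred k ih =>
    obtain ⟨x, y, h⟩ := ih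
    refine ⟨x * (a + d) + y, -x, ?_⟩
    rw [_root_.zpow_sub_one, cm_mul, h, hinv]
    ext i j
    fin_cases i <;> fin_cases j <;> simp [Matrix.mul_apply, Fin.sum_univ_two]
    · linear_combination y * had
    · ring
    · ring
    · linear_combination y * had

/-- The upper left entry of powers modulo a divisor of `b c`. -/
def phi {a b c d : ℤ} (had : a * d - b * c = 1) (g : SpecialLinearGroup (Fin 2) ℤ)
    (hg : cm g = !![a, b; c, d]) (n : ℕ) (hn : (n : ℤ) ∣ b * c) :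
    Multiplicative ℤ →* ZMod n where
  toFun k := ((cm (g ^ k.toAdd) 0 0 : ℤ) : ZMod n)
  map_one' := by simp [cm_one]
  map_mul' j k := by
    obtain ⟨x, y, h⟩ := zpow_form had g hg j.toAdd
    obtain ⟨x', y', h'⟩ := zpow_form had g hg k.toAdd
    rw [toAdd_mul, _root_.zpow_add, cm_mul, h, h', Matrix.mul_apply,
      Fin.sum_univ_two]
    have : ((b * c : ℤ) : ZMod n) = 0 := (ZMod.intCast_zmod_eq_zero_iff_dvd _ _).mpr hn
    simp only [of_apply, cons_val', cons_val_zero, cons_val_fin_one, cons_val_one]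
    have h3 : (((x + y * a) * (x' + y' * a) + y * b * (y' * c) : ℤ) : ZMod n) =
      (((x + y * a) * (x' + y' * a) : ℤ) : ZMod n) + ((y * y' : ℤ) : ZMod n) * ((b * c : ℤ) : ZMod n) := by
      push_cast; ring
    rw [h3, this, mul_zero, add_zero]
    push_cast
    rfl

theorem phi_nat {a b c d : ℤ} (had : a * d - b * c = 1) (g : SpecialLinearGroup (Fin 2) ℤ)
    (hg : cm g = !![a, b; c, d]) (n : ℕ) (hn : (n : ℤ) ∣ b * c) (k : ℕ) :
    phi had g hg n hn (Multiplicative.ofAdd (k : ℤ)) = (a : ZMod n) ^ k := by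
  have h1 : Multiplicative.ofAdd (k : ℤ) = Multiplicative.ofAdd (1 : ℤ) ^ k := by
    rw [← ofAdd_nsmul]; simp
  rw [h1, map_pow]
  congr 1
  simp [phi, hg]

theorem phi_zpow {a b c d : ℤ} (had : a * d - b * c = 1) (g : SpecialLinearGroup (Fin 2) ℤ)
    (hg : cm g = !![a, b; c, d]) (n : ℕ) (hn : (n : ℤ) ∣ b * c) (h : ℕ) (s : ℤ)
    (u : (ZMod n)ˣ) (hu : (a : ZMod n) ^ h = u) :
    ((cm (g ^ ((h : ℤ) * s)) 0 0 : ℤ) : ZMod n) = ((u ^ s : (ZMod n)ˣ) : ZMod n) := by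
  have h1 : Multiplicative.ofAdd ((h : ℤ) * s) = Multiplicative.ofAdd (h : ℤ) ^ s := by
    rw [← ofAdd_zsmul, smul_eq_mul, mul_comm]
  have h2 : (phi had g hg n hn).toHomUnits (Multiplicative.ofAdd (h : ℤ)) = u := by
    ext
    rw [MonoidHom.coe_toHomUnits, phi_nat, hu]
  have h3 : phi had g hg n hn (Multiplicative.ofAdd ((h : ℤ) * s)) =
      ((u ^ s : (ZMod n)ˣ) : ZMod n) := by
    rw [← MonoidHom.coe_toHomUnits, h1, map_zpow, h2]
  exact h3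

theorem caseA {q₁ q₂ : ℕ} (hp₁ : Fact q₁.Prime) (hp₂ : Fact q₂.Prime) {a d : ℤ}
    (had : a * d - q₂ * q₁ = 1) (h₁ : Odd (q₁ / 2)) (hcop : Nat.Coprime (q₁ / 2) (q₂ / 2))
    (hl₁ : legendreSym q₁ a = 1) (hl₂ : legendreSym q₂ a = -1) :
    Good !![a, (q₂ : ℤ); (q₁ : ℤ), d] := by
  have hdet : (!![a, (q₂ : ℤ); (q₁ : ℤ), d]).det = 1 := by rw [det_fin_two_of]; exact had
  set g : SpecialLinearGroup (Fin 2) ℤ := ⟨!![a, (q₂ : ℤ); (q₁ : ℤ), d], hdet⟩ with hgdef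
  have hg : cm g = !![a, (q₂ : ℤ); (q₁ : ℤ), d] := rfl
  -- exponents
  obtain ⟨s, r, hsr, hr⟩ : ∃ s r : ℤ, ((q₁ / 2 : ℕ) : ℤ) * s + ((q₂ / 2 : ℕ) : ℤ) * r = 1 ∧
      Odd r := by
    have hc : IsCoprime ((q₁ / 2 : ℕ) : ℤ) ((q₂ / 2 : ℕ) : ℤ) := Nat.isCoprime_iff_coprime.mpr hcop
    obtain ⟨u, v, huv⟩ := hc
    rcases Int.even_or_odd v with hv | hv
    · refine ⟨u - ((q₂ / 2 : ℕ) : ℤ), v + ((q₁ / 2 : ℕ) : ℤ), by linear_combination huv, ?_⟩
      exact hv.add_odd ((Int.odd_coe_nat _).mpr h₁)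
    · exact ⟨u, v, by linear_combination huv, hv⟩
  obtain ⟨x₁, y₁, e₁⟩ := zpow_form had g hg (((q₁ / 2 : ℕ) : ℤ) * s)
  obtain ⟨x₂, y₂, e₂⟩ := zpow_form had g hg (((q₂ / 2 : ℕ) : ℤ) * r)
  have hprod : cm (g ^ (((q₁ / 2 : ℕ) : ℤ) * s)) * cm (g ^ (((q₂ / 2 : ℕ) : ℤ) * r)) =
      !![a, (q₂ : ℤ); (q₁ : ℤ), d] := by
    rw [← cm_mul, ← _root_.zpow_add, hsr, zpow_one, hg]
  have hd₁ := cm_det (g ^ (((q₁ / 2 : ℕ) : ℤ) * s))
  have hd₂ := cm_det (g ^ (((q₂ / 2 : ℕ) : ℤ) * r))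
  have f₁ := phi_zpow had g hg q₁ (Dvd.intro_left _ rfl) (q₁ / 2) s 1
    (by rw [← legendreSym.eq_pow, hl₁]; simp)
  have f₂ := phi_zpow had g hg q₂ (Dvd.intro _ rfl) (q₂ / 2) r (-1)
    (by rw [← legendreSym.eq_pow, hl₂]; simp)
  rw [e₁] at f₁ hd₁ hprod
  rw [e₂] at f₂ hd₂ hprod
  rw [det_fin_two_of] at hd₁ hd₂
  rw [_root_.one_zpow] at f₁
  rw [Odd.neg_one_zpow hr] at f₂
  simp only [of_apply, cons_val', cons_val_zero, cons_val_fin_one] at f₁ f₂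
  have g₁ : (q₁ : ℤ) ∣ (x₁ + y₁ * a) - 1 := by
    rw [← ZMod.intCast_zmod_eq_zero_iff_dvd]
    push_cast
    push_cast at f₁
    rw [f₁]; simp
  have g₂ : (q₂ : ℤ) ∣ (x₂ + y₂ * a) + 1 := by
    rw [← ZMod.intCast_zmod_eq_zero_iff_dvd]
    push_cast
    push_cast at f₂
    rw [f₂]; simp
  obtain ⟨κ₁, k₁⟩ := g₁
  obtain ⟨κ₂, k₂⟩ := g₂
  have m10 := congrFun (congrFun hprod 1) 0
  have m00 := congrFun (congrFun hprod 0) 0
  simp [Matrix.mul_apply, Fin.sum_univ_two] at m10 m00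
  have hq₁ : (q₁ : ℤ) ≠ 0 := by exact_mod_cast hp₁.out.ne_zero
  have h1 : x₁ * y₂ + x₂ * y₁ + y₁ * y₂ * (a + d) = 1 := by
    apply mul_right_cancel₀ hq₁
    linear_combination m10
  have h0 : x₁ * x₂ - y₁ * y₂ = 0 := by
    linear_combination m00 - a * h1 + y₁ * y₂ * had
  refine good_of_powers (κ₁ := κ₁) (κ₂ := κ₂) had ?_ ?_ h0 h1 ?_ ?_
  · linear_combination hd₁ - y₁ ^ 2 * had
  · linear_combination hd₂ - y₂ ^ 2 * had
  · linear_combination k₁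
  · linear_combination k₂

end Pool.Agent.H370.UL
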