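import Pool.Agent.H370.UL.Rows

namespace Pool.Agent.H370.UL

open Matrix

variable {ι : Type*} [Fintype ι] [DecidableEq ι]

theorem exists_syzygy (α β : ℤ) : ∃ p q u v : ℤ, u * p + v * q = 1 ∧ α * q = β * p := by
  rcases eq_or_ne (Int.gcd α β) 0 with h | h
  · rw [Int.gcd_eq_zero_iff] at h
    exact ⟨1, 0, 1, 0, by norm_num, by rw [h.1, h.2]; norm_num⟩
  · have hg : ((Int.gcd α β : ℕ) : ℤ) ≠ 0 := by exact_mod_cast h
    obtain ⟨p, hp⟩ := Int.gcd_dvd_left α β
    obtain ⟨q, hq⟩ := Int.gcd_dvd_right α β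
    refine ⟨p, q, Int.gcdA α β, Int.gcdB α β, ?_, ?_⟩
    · have hb := Int.gcd_eq_gcd_ab α β
      apply mul_left_cancel₀ hg
      linear_combination (-Int.gcdA α β) * hp - Int.gcdB α β * hq - hb
    · apply mul_left_cancel₀ hg
      linear_combination β * hp - α * hq

/-- A primitive row orthogonal to a given column. -/
theorem exists_primitive {i₀ i₁ : ι} (hne : i₀ ≠ i₁) (a : Matrix ι (Fin 1) ℤ) :
    ∃ (k : Matrix (Fin 1) ι ℤ) (g : Matrix ι (Fin 1) ℤ), k * a = 0 ∧ k * g = 1 := by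
  obtain ⟨p, q, u, v, h1, h2⟩ := exists_syzygy (a i₀ 0) (a i₁ 0)
  refine ⟨Matrix.of fun _ i => if i = i₀ then q else if i = i₁ then -p else 0,
    Matrix.of fun i _ => if i = i₀ then v else if i = i₁ then -u else 0, ?_, ?_⟩
  · ext x y
    rw [Subsingleton.elim x 0, Subsingleton.elim y 0, Matrix.mul_apply,
      ← Finset.add_sum_erase _ _ (Finset.mem_univ i₀),
      ← Finset.add_sum_erase _ _ (Finset.mem_erase.mpr ⟨hne.symm, Finset.mem_univ i₁⟩),
      Finset.sum_eq_zero]
    · simp only [of_apply, if_true, if_neg hne.symm, Matrix.zero_apply]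
      linear_combination h2
    · intro i hi
      rw [Finset.mem_erase, Finset.mem_erase] at hi
      simp only [of_apply, if_neg hi.1, if_neg hi.2.1, zero_mul]
  · ext x y
    rw [Subsingleton.elim x 0, Subsingleton.elim y 0, Matrix.mul_apply,
      ← Finset.add_sum_erase _ _ (Finset.mem_univ i₀),
      ← Finset.add_sum_erase _ _ (Finset.mem_erase.mpr ⟨hne.symm, Finset.mem_univ i₁⟩),
      Finset.sum_eq_zero]
    · simp only [of_apply, if_true, if_neg hne.symm, Matrix.one_apply_eq]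
      linear_combination h1
    · intro i hi
      rw [Finset.mem_erase, Finset.mem_erase] at hi
      simp only [of_apply, if_neg hi.1, if_neg hi.2.1, zero_mul]

theorem EU_mul (Z W : Matrix ι (Fin 1) ℤ) : EU Z * EU W = EU (Z + W) := by
  simp only [EU, fromBlocks_multiply, Matrix.mul_zero, Matrix.zero_mul, add_zero, zero_add,
      Matrix.one_mul, Matrix.mul_one, add_comm]

theorem EL_mul (Z W : Matrix (Fin 1) ι ℤ) : EL Z * EL W = EL (Z + W) := by
  simp only [EL, fromBlocks_multiply, Matrix.mul_zero, Matrix.zero_mul, add_zero, zero_add,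
      Matrix.one_mul, Matrix.mul_one]

theorem EU_zero : EU (0 : Matrix ι (Fin 1) ℤ) = 1 := by
  rw [EU, fromBlocks_one]

theorem EL_zero : EL (0 : Matrix (Fin 1) ι ℤ) = 1 := by
  rw [EL, fromBlocks_one]

theorem det_EU (Z : Matrix ι (Fin 1) ℤ) : (EU Z).det = 1 := by
  rw [EU, det_fromBlocks_zero₂₁, det_one, det_one, one_mul]

theorem det_EL (Z : Matrix (Fin 1) ι ℤ) : (EL Z).det = 1 := by
  rw [EL, det_fromBlocks_zero₁₂, det_one, det_one, one_mul]

/-- Reduction of the size by one. -/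
theorem reduce {i₀ i₁ : ι} (hne : i₀ ≠ i₁) (A : Matrix (ι ⊕ Fin 1) (ι ⊕ Fin 1) ℤ)
    (hA : A.det = 1) : ∃ (y : Matrix ι (Fin 1) ℤ) (w : Matrix (Fin 1) ι ℤ) (A' : Matrix ι ι ℤ)
      (v : Matrix ι (Fin 1) ℤ) (x : Matrix (Fin 1) ι ℤ), A'.det = 1 ∧
      A = EU y * EL w * fromBlocks A' 0 0 1 * EU v * EL x := by
  have h1 := mul_inv' hA
  have h2 := inv_mul' hA
  obtain ⟨P, Q, R, S, hinv⟩ : ∃ P Q R S, A⁻¹ = fromBlocks P Q R S :=
    ⟨_, _, _, _, (fromBlocks_toBlocks A⁻¹).symm⟩
  obtain ⟨A₁, A₂, A₃, A₄, hAb⟩ : ∃ P Q R S, A = fromBlocks P Q R S :=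
    ⟨_, _, _, _, (fromBlocks_toBlocks A).symm⟩
  obtain ⟨k, g, hk, hg⟩ := exists_primitive hne A₂
  have h3 := h2
  rw [hinv, hAb, fromBlocks_multiply, ← fromBlocks_one, fromBlocks_inj] at h3
  obtain ⟨-, -, -, h34⟩ := h3
  have h4 := h1
  rw [hinv, hAb, fromBlocks_multiply, ← fromBlocks_one, fromBlocks_inj] at h4
  obtain ⟨h41, h42, h43, h44⟩ := h4
  set z := R + (1 - R * g) * k with hz
  have hzA : z * A₂ + S * A₄ = 1 := by
    rw [hz, Matrix.add_mul, Matrix.mul_assoc, hk, Matrix.mul_zero, add_zero, h34]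
  have hzg : z * g = 1 := by
    rw [hz, Matrix.add_mul, Matrix.mul_assoc, hg, Matrix.mul_one]; abel
  set x := z * A₁ + S * A₃ with hx
  set y := g * (1 - S) with hy
  have hzy : z * y + S = 1 := by
    rw [hy, ← Matrix.mul_assoc, hzg, Matrix.one_mul]; abel
  have hM1 : EL x * A⁻¹ = fromBlocks P Q z S := by
    have e1 : x * P + R = z := by
      have : R = (z * A₂ + S * A₄) * R := by rw [hzA, Matrix.one_mul]
      calc x * P + R = x * P + (z * A₂ + S * A₄) * R := by rw [← this]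
        _ = z * (A₁ * P + A₂ * R) + S * (A₃ * P + A₄ * R) := by
          rw [hx]; simp only [Matrix.add_mul, Matrix.mul_add, Matrix.mul_assoc]; abel
        _ = z := by rw [h41, h43, Matrix.mul_one, Matrix.mul_zero, add_zero]
    have e2 : x * Q + S = S := by
      have : S = (z * A₂ + S * A₄) * S := by rw [hzA, Matrix.one_mul]
      calc x * Q + S = x * Q + (z * A₂ + S * A₄) * S := by rw [← this]
        _ = z * (A₁ * Q + A₂ * S) + S * (A₃ * Q + A₄ * S) := by
          rw [hx]; simp only [Matrix.add_mul, Matrix.mul_add, Matrix.mul_assoc]; abel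
        _ = S := by rw [h42, h44, Matrix.mul_one, Matrix.mul_zero, zero_add]
    rw [hinv]
    simp only [EL, fromBlocks_multiply, Matrix.zero_mul, add_zero, Matrix.one_mul]
    rw [e1, e2]
  have hM : EL x * A⁻¹ * EU y = EU (P * y + Q) * fromBlocks (P - (P * y + Q) * z) 0 0 1 * EL z := by
    rw [hM1]
    simp only [EL, EU, fromBlocks_multiply, Matrix.mul_zero, Matrix.zero_mul, add_zero, zero_add,
      Matrix.one_mul, Matrix.mul_one]
    rw [hzy]
    congr 1
    abel
  set C := P - (P * y + Q) * z with hC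
  have hdA : (A⁻¹).det = 1 := by
    have := congrArg Matrix.det h1
    rw [det_mul, hA, det_one, one_mul] at this
    exact this
  have hdC : C.det = 1 := by
    have := congrArg Matrix.det hM
    rw [det_mul, det_mul, det_mul, det_mul, det_EL, det_EU, det_EU, det_EL, hdA,
      det_fromBlocks_zero₂₁, det_one] at this
    linarith
  refine ⟨y, -z, C⁻¹, -(P * y + Q), x, ?_, ?_⟩
  · have := congrArg Matrix.det (mul_inv' hdC)
    rw [det_mul, hdC, det_one, one_mul] at this
    exact this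
  · have hAinv : A⁻¹ = EL (-x) * (EU (P * y + Q) * fromBlocks C 0 0 1 * EL z) * EU (-y) := by
      rw [← hM]
      calc A⁻¹ = 1 * A⁻¹ * 1 := by rw [Matrix.one_mul, Matrix.mul_one]
        _ = (EL (-x) * EL x) * A⁻¹ * (EU y * EU (-y)) := by
          rw [EL_mul, EU_mul, neg_add_cancel, add_neg_cancel, EL_zero, EU_zero]
        _ = _ := by simp only [Matrix.mul_assoc]
    have hCC : fromBlocks C 0 0 (1 : Matrix (Fin 1) (Fin 1) ℤ) * fromBlocks C⁻¹ 0 0 1 = 1 := by
      rw [fromBlocks_multiply, mul_inv' hdC]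
      simp only [Matrix.mul_zero, Matrix.zero_mul, add_zero, zero_add, Matrix.mul_one]
      exact fromBlocks_one
    have hcan : A⁻¹ * (EU y * EL (-z) * fromBlocks C⁻¹ 0 0 1 * EU (-(P * y + Q)) * EL x) = 1 := by
      rw [hAinv]
      calc EL (-x) * (EU (P * y + Q) * fromBlocks C 0 0 1 * EL z) * EU (-y) *
            (EU y * EL (-z) * fromBlocks C⁻¹ 0 0 1 * EU (-(P * y + Q)) * EL x)
          = EL (-x) * (EU (P * y + Q) * (fromBlocks C 0 0 1 * (EL z * (EU (-y) * EU y) * EL (-z)) *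
              fromBlocks C⁻¹ 0 0 1) * EU (-(P * y + Q))) * EL x := by
            simp only [Matrix.mul_assoc]
        _ = 1 := by
            rw [EU_mul, neg_add_cancel, EU_zero, Matrix.mul_one, EL_mul, add_neg_cancel, EL_zero,
              Matrix.mul_one, hCC, Matrix.mul_one, EU_mul, add_neg_cancel, EU_zero, Matrix.mul_one,
              EL_mul, neg_add_cancel, EL_zero]
    calc A = A * 1 := by rw [Matrix.mul_one]
      _ = A * (A⁻¹ * _) := by rw [hcan]
      _ = _ := by rw [← Matrix.mul_assoc, h1, Matrix.one_mul]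

end Pool.Agent.H370.UL
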