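import Pool.Agent.H370.UL.Arith

namespace Pool.Agent.H370.UL

open Matrix

theorem quad_pos (B C x : ℤ) {A : ℤ} (hA : 1 ≤ A) (hx : |B| + |C| + 1 ≤ x) :
    0 < A * x ^ 2 + B * x + C := by
  have h1 := neg_abs_le B
  have h2 := neg_abs_le C
  have h3 := abs_nonneg B
  have h4 := abs_nonneg C
  have hx1 : 1 ≤ x := by linarith
  have e1 : x ^ 2 ≤ A * x ^ 2 := by nlinarith [sq_nonneg x]
  have e2 : -|B| * x ≤ B * x := by nlinarith
  have e3 : (|C| + 1) * x ≤ (x - |B|) * x := by nlinarith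
  nlinarith

theorem sign_lemma {a b c d : ℤ} (had : a * d - b * c = 1) :
    ∃ σ K : ℤ, (σ = 1 ∨ σ = -1) ∧ ∀ x ≥ K, 0 < σ * ((c + x * a) * (d + x * b)) := by
  rcases eq_or_ne a 0 with ha | ha
  · refine ⟨-1, c * d + 1, Or.inr rfl, fun x hx => ?_⟩
    subst ha
    have h1 : b * c = -1 := by linear_combination -had
    have h2 : (-1 : ℤ) * ((c + x * 0) * (d + x * b)) = x - c * d := by linear_combination (-x) * h1
    rw [h2]; linarith
  rcases eq_or_ne b 0 with hb | hb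
  · refine ⟨1, -(c * d) + 1, Or.inl rfl, fun x hx => ?_⟩
    subst hb
    have h1 : a * d = 1 := by linear_combination had
    have h2 : (1 : ℤ) * ((c + x * a) * (d + x * 0)) = x + c * d := by linear_combination x * h1
    rw [h2]; linarith
  rcases lt_or_gt_of_ne (mul_ne_zero ha hb) with h | h
  · refine ⟨-1, |-(a * d + b * c)| + |-(c * d)| + 1, Or.inr rfl, fun x hx => ?_⟩
    have := quad_pos (-(a * d + b * c)) (-(c * d)) x (A := -(a * b)) (by omega) hx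
    calc (0 : ℤ) < _ := this
      _ = _ := by ring
  · refine ⟨1, |a * d + b * c| + |c * d| + 1, Or.inl rfl, fun x hx => ?_⟩
    have := quad_pos (a * d + b * c) (c * d) x (A := a * b) (by omega) hx
    calc (0 : ℤ) < _ := this
      _ = _ := by ring

theorem mod4 : ∀ p r : ZMod 4, (∃ s t : ZMod 4, s * p + t * r = 1) →
    ∃ x₁ x₂ x₃ : ZMod 4, r = 1 + x₂ * x₃ ∧ p = x₃ + x₁ * r := by decide

theorem exists_lift (ξ : ZMod 4) (K : ℤ) : ∃ x : ℤ, K ≤ x ∧ (x : ZMod 4) = ξ := by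
  refine ⟨(ξ.val : ℤ) + 4 * |K|, ?_, ?_⟩
  · have := le_abs_self K
    have h2 := abs_nonneg K
    have h3 : (0 : ℤ) ≤ (ξ.val : ℤ) := Int.natCast_nonneg _
    linarith
  · push_cast
    rw [show (4 : ZMod 4) = 0 from rfl, zero_mul, add_zero, ZMod.natCast_zmod_val]

theorem rows {a b c d : ℤ} (had : a * d - b * c = 1) :
    ∃ x₁ x₂ x₃ : ℤ, ∃ q : ℕ, q.Prime ∧ q % 4 = 3 ∧
      (c + x₁ * a) + x₃ * (a + x₂ * (c + x₁ * a)) = q ∧
      ((d + x₁ * b) + x₃ * (b + x₂ * (d + x₁ * b))).natAbs % 4 = 3 := by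
  obtain ⟨σ, K, hσ, hK⟩ := sign_lemma had
  have hσ2 : σ * σ = 1 := by rcases hσ with rfl | rfl <;> norm_num
  obtain ⟨ξ₁, ξ₂, ξ₃, hr, hp⟩ := mod4 ((3 * (d - σ * c) : ℤ) : ZMod 4) ((3 * (σ * a - b) : ℤ) : ZMod 4)
    ⟨((3 * a : ℤ) : ZMod 4), ((3 * c : ℤ) : ZMod 4), by
      have h1 : 3 * a * (3 * (d - σ * c)) + 3 * c * (3 * (σ * a - b)) = 9 := by
        linear_combination 9 * had
      rw [← Int.cast_mul, ← Int.cast_mul, ← Int.cast_add, h1]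
      rfl⟩
  obtain ⟨x₁, hx₁, hξ₁⟩ := exists_lift ξ₁ K
  have hc1 := hK x₁ hx₁
  set c₁ := c + x₁ * a with hc₁
  set d₁ := d + x₁ * b with hd₁
  -- second step
  obtain ⟨x₂, hx₂, hξ₂⟩ := exists_lift ξ₂ (|σ * (a * d₁ + b * c₁)| + |σ * (a * b)| + 1)
  have hab2 : 0 < σ * ((a + x₂ * c₁) * (b + x₂ * d₁)) := by
    have := quad_pos (σ * (a * d₁ + b * c₁)) (σ * (a * b)) x₂ (A := σ * (c₁ * d₁)) (by omega) hx₂
    calc (0 : ℤ) < _ := this
      _ = _ := by ring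
  set a₂ := a + x₂ * c₁ with ha₂
  set b₂ := b + x₂ * d₁ with hb₂
  have hdet2 : a₂ * d₁ - b₂ * c₁ = 1 := by
    rw [ha₂, hb₂, hc₁, hd₁]; linear_combination had
  have ha₂0 : a₂ ≠ 0 := by
    intro h; rw [h] at hab2; simp at hab2
  obtain ⟨X₃, -, hξ₃⟩ := exists_lift ξ₃ 0
  -- residues
  have hres1 : ((c₁ + X₃ * a₂ : ℤ) : ZMod 4) = 3 := by
    have h1 : ((c₁ + X₃ * a₂ : ℤ) : ZMod 4) = (c : ZMod 4) * (1 + ξ₂ * ξ₃) +
        (a : ZMod 4) * (ξ₃ + ξ₁ * (1 + ξ₂ * ξ₃)) := by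
      rw [ha₂, hc₁, ← hξ₁, ← hξ₂, ← hξ₃]; push_cast; ring
    rw [h1, ← hr, ← hp]
    have h2 : c * (3 * (σ * a - b)) + a * (3 * (d - σ * c)) = 3 := by linear_combination 3 * had
    rw [← Int.cast_mul, ← Int.cast_mul, ← Int.cast_add, h2]
    rfl
  have hres2 : ((d₁ + X₃ * b₂ : ℤ) : ZMod 4) = ((3 * σ : ℤ) : ZMod 4) := by
    have h1 : ((d₁ + X₃ * b₂ : ℤ) : ZMod 4) = (d : ZMod 4) * (1 + ξ₂ * ξ₃) +
        (b : ZMod 4) * (ξ₃ + ξ₁ * (1 + ξ₂ * ξ₃)) := by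
      rw [hb₂, hd₁, ← hξ₁, ← hξ₂, ← hξ₃]; push_cast; ring
    rw [h1, ← hr, ← hp]
    have h2 : d * (3 * (σ * a - b)) + b * (3 * (d - σ * c)) = 3 * σ := by
      linear_combination 3 * σ * had
    rw [← Int.cast_mul, ← Int.cast_mul, ← Int.cast_add, h2]
  have hm1 : (4 : ℤ) ∣ (c₁ + X₃ * a₂) - 3 := by
    have : (((c₁ + X₃ * a₂) - 3 : ℤ) : ZMod 4) = 0 := by
      rw [Int.cast_sub, hres1]; rfl
    exact_mod_cast (ZMod.intCast_zmod_eq_zero_iff_dvd _ 4).mp this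
  have hm2 : (4 : ℤ) ∣ (d₁ + X₃ * b₂) - 3 * σ := by
    have : (((d₁ + X₃ * b₂) - 3 * σ : ℤ) : ZMod 4) = 0 := by
      rw [Int.cast_sub, hres2, sub_self]
    exact_mod_cast (ZMod.intCast_zmod_eq_zero_iff_dvd _ 4).mp this
  -- coprimality
  have hco : IsCoprime (c₁ + X₃ * a₂) ((a₂.natAbs * 4 : ℕ) : ℤ) := by
    rw [Nat.cast_mul]
    apply IsCoprime.mul_right
    · have h1 : IsCoprime (c₁ + X₃ * a₂) a₂ := ⟨-b₂, d₁ + X₃ * b₂, by linear_combination hdet2⟩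
      exact IsCoprime.of_isCoprime_of_dvd_right h1 (by rw [Int.natAbs_dvd])
    · obtain ⟨k, hk⟩ := hm1
      exact ⟨-1, k + 1, by push_cast; linear_combination -hk⟩
  obtain ⟨q, hqn, hq, hmod⟩ := Nat.forall_exists_prime_gt_and_zmodEq
    (c₁.natAbs + (a₂ ^ 2 * |d₁|).natAbs) (q := a₂.natAbs * 4)
    (by have := Int.natAbs_ne_zero.mpr ha₂0; positivity) hco
  replace hmod := Int.modEq_iff_dvd.mp hmod.symm
  obtain ⟨m, hm⟩ : (a₂ * 4) ∣ (q : ℤ) - (c₁ + X₃ * a₂) := by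
    refine dvd_trans ?_ hmod
    rw [Nat.cast_mul]
    exact mul_dvd_mul (by rw [Int.dvd_natAbs]) dvd_rfl
  refine ⟨x₁, x₂, X₃ + 4 * m, q, hq, ?_, by linear_combination -hm, ?_⟩
  · obtain ⟨k, hk⟩ := hm1
    have h1 : (q : ℤ) = 3 + 4 * (k + a₂ * m) := by linear_combination hm + hk
    omega
  · obtain ⟨k, hk⟩ := hm2
    have h1 : d₁ + (X₃ + 4 * m) * b₂ = 3 * σ + 4 * (k + m * b₂) := by linear_combination hk
    have hqbig : |c₁| + a₂ ^ 2 * |d₁| < q := by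
      have h3 : ((c₁.natAbs + (a₂ ^ 2 * |d₁|).natAbs : ℕ) : ℤ) < q := by exact_mod_cast hqn
      rw [Nat.cast_add, Int.natCast_natAbs, Int.natCast_natAbs,
        abs_of_nonneg (by positivity : 0 ≤ a₂ ^ 2 * |d₁|)] at h3
      exact h3
    have hpos : 0 < σ * (d₁ + (X₃ + 4 * m) * b₂) := by
      have h4 : a₂ ^ 2 * (σ * (d₁ + (X₃ + 4 * m) * b₂)) =
          a₂ ^ 2 * (σ * d₁) + (q - c₁) * (σ * (a₂ * b₂)) := by
        linear_combination (-(σ * (a₂ * b₂))) * hm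
      have h5 : 0 < a₂ ^ 2 * (σ * (d₁ + (X₃ + 4 * m) * b₂)) := by
        rw [h4]
        have h6 : -|d₁| ≤ σ * d₁ := by
          rcases hσ with rfl | rfl
          · rw [one_mul]; exact neg_abs_le _
          · have := le_abs_self d₁; linarith
        have h7 : a₂ ^ 2 * (-|d₁|) ≤ a₂ ^ 2 * (σ * d₁) :=
          mul_le_mul_of_nonneg_left h6 (sq_nonneg _)
        have h8 := le_abs_self c₁
        have h9 : (q - c₁) * 1 ≤ (q - c₁) * (σ * (a₂ * b₂)) := by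
          apply mul_le_mul_of_nonneg_left (by linarith)
          nlinarith [abs_nonneg d₁, sq_nonneg a₂]
        nlinarith
      exact (mul_pos_iff_of_pos_left (by positivity)).mp h5
    rcases hσ with rfl | rfl
    · rw [h1] at hpos ⊢; omega
    · rw [h1] at hpos ⊢; omega

/-- Every matrix of `SL₂(ℤ)` stabilised by a `4 × 4` identity block is a product of lower, upper,
lower, upper unitriangular matrices. -/
theorem lulu6 {B : Matrix (Fin 2) (Fin 2) ℤ} (hB : B.det = 1) :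
    LULU b6 (fromBlocks B 0 0 1) := by
  have hB' := hB
  rw [det_fin_two] at hB'
  obtain ⟨x₁, x₂, x₃, q, hq, hq4, h1, h2⟩ := rows hB'
  have hdet : (B 0 0 + x₂ * (B 1 0 + x₁ * B 0 0)) *
      ((B 1 1 + x₁ * B 0 1) + x₃ * (B 0 1 + x₂ * (B 1 1 + x₁ * B 0 1))) -
      (B 0 1 + x₂ * (B 1 1 + x₁ * B 0 1)) * q = 1 := by
    rw [← h1]; linear_combination hB'
  obtain ⟨x₄, hx₄⟩ := step4 ⟨hq⟩ hq4 h2 hdet
  refine block_lemma (N := uu x₄ * ll x₃ * uu x₂ * ll x₁)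
    (N' := ll (-x₁) * uu (-x₂) * ll (-x₃) * uu (-x₄)) hB ?_ (lulu_two _ _ _ _) ?_ hx₄
  · calc ll (-x₁) * uu (-x₂) * ll (-x₃) * uu (-x₄) * (uu x₄ * ll x₃ * uu x₂ * ll x₁)
        = ll (-x₁) * (uu (-x₂) * (ll (-x₃) * (uu (-x₄) * uu x₄) * ll x₃) * uu x₂) * ll x₁ := by
          simp only [Matrix.mul_assoc]
      _ = 1 := by
          rw [uu_mul, neg_add_cancel, uu_zero, Matrix.mul_one, ll_mul, neg_add_cancel, ll_zero,
            Matrix.mul_one, uu_mul, neg_add_cancel, uu_zero, Matrix.mul_one, ll_mul,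
            neg_add_cancel, ll_zero]
  · rw [← h1]
    ext i j
    fin_cases i <;> fin_cases j <;>
      simp [uu, ll, Matrix.mul_apply, Fin.sum_univ_two] <;> ring

end Pool.Agent.H370.UL
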