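import Pool.Agent.H370.UL.Block

namespace Pool.Agent.H370.UL

open Matrix

/-- Elementary upper matrix. -/
def uu (x : ℤ) : Matrix (Fin 2) (Fin 2) ℤ := !![1, x; 0, 1]

/-- Elementary lower matrix. -/
def ll (x : ℤ) : Matrix (Fin 2) (Fin 2) ℤ := !![1, 0; x, 1]

theorem up_uu (x : ℤ) : Up Fin.val (uu x) := by
  refine ⟨by simp [uu, det_fin_two_of], ?_, ?_⟩
  · intro i; fin_cases i <;> simp [uu]
  · intro i j hij; fin_cases i <;> fin_cases j <;> simp_all [uu]

theorem lo_ll (x : ℤ) : Lo Fin.val (ll x) := by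
  refine ⟨by simp [ll, det_fin_two_of], ?_, ?_⟩
  · intro i; fin_cases i <;> simp [ll]
  · intro i j hij; fin_cases i <;> fin_cases j <;> simp_all [ll]

theorem lulu_two (a b c d : ℤ) : LULU Fin.val (ll a * uu b * ll c * uu d) :=
  ⟨_, _, _, _, lo_ll a, up_uu b, lo_ll c, up_uu d, rfl⟩

theorem half_of {E D F P Q : Matrix (Fin 2) (Fin 2) ℤ} (hE : E = 1 + D * F) (hPQ : P * Q = 1)
    (h : LULU Fin.val (P * (1 + F * D) * Q)) : Half E := by
  have hQP : Q * P = 1 := mul_eq_one_comm.mp hPQ
  refine ⟨D * Q, P * F, ?_, ?_⟩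
  · have : D * Q * (P * F) = D * (Q * P) * F := by simp only [Matrix.mul_assoc]
    rw [this, hQP, Matrix.mul_one]; exact hE
  · have : P * (1 + F * D) * Q = 1 + P * F * (D * Q) := by
      rw [Matrix.mul_add, Matrix.add_mul, Matrix.mul_one, hPQ]
      simp only [Matrix.mul_assoc]
    rwa [this] at h

/-- Two matrices of determinant one with the same first column. -/
theorem eq_mul_uu {p q r s q' s' : ℤ} (h1 : p * s - q * r = 1) (h2 : p * s' - q' * r = 1) :
    !![p, q'; r, s'] = !![p, q; r, s] * uu (s * q' - q * s') := by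
  ext i j
  fin_cases i <;> fin_cases j <;>
    simp [uu, Matrix.mul_apply, Fin.sum_univ_two]
  · linear_combination (-q') * h1 + q * h2
  · linear_combination (-s') * h1 + s * h2

/-- Two matrices of determinant one with the same first row. -/
theorem eq_ll_mul {p q r s r' s' : ℤ} (h1 : p * s - q * r = 1) (h2 : p * s' - q * r' = 1) :
    !![p, q; r', s'] = ll (r' * s - s' * r) * !![p, q; r, s] := by
  ext i j
  fin_cases i <;> fin_cases j <;>
    simp [ll, Matrix.mul_apply, Fin.sum_univ_two]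
  · linear_combination (-r') * h1 + r * h2
  · linear_combination (-s') * h1 + s * h2

theorem uu_mul (x y : ℤ) : uu x * uu y = uu (x + y) := by
  ext i j
  fin_cases i <;> fin_cases j <;> simp [uu, add_comm]

theorem ll_mul (x y : ℤ) : ll x * ll y = ll (x + y) := by
  ext i j
  fin_cases i <;> fin_cases j <;> simp [ll]

theorem uu_zero : uu 0 = 1 := by
  ext i j
  fin_cases i <;> fin_cases j <;> simp [uu]

theorem ll_zero : ll 0 = 1 := by
  ext i j
  fin_cases i <;> fin_cases j <;> simp [ll]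

theorem half_one {a b c d x y κ t M N f f' h z : ℤ}
    (hx : x ^ 2 + x * y * (a + d) + y ^ 2 = 1) (had : a * d - b * c = 1)
    (hκ : x + y * a = 1 + κ * c)
    (hMN : M * N = y * z) (hf : t - 1 = M * f) (hf' : t + 1 = N * f')
    (hh : t * x = 1 + y * h) :
    Half (!![t, -(z * f'); -(y * f), t] * !![x + y * a, y * b; y * c, x + y * d]) := by
  have hT : t ^ 2 - y * z * f * f' = 1 := by
    linear_combination (-f * f') * (-hMN) + (t + 1) * hf + (M * f) * hf'
  have hA : t * (x + y * a) - z * f' * y * c + M * (t * c - f * (x + y * a)) =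
      1 + (κ - M) * c := by
    linear_combination (t - M * f) * hκ + (1 + κ * c) * hf + M * c * hf' + c * f' * hMN
  have hB : c - f * (1 + (κ - M) * c) = t * c - f * (x + y * a) := by
    linear_combination (-c) * hf + f * hκ
  apply half_of (D := !![1, 0; 0, y])
    (F := !![t * (x + y * a) - z * f' * y * c - 1, t * y * b - z * f' * (x + y * d);
      t * c - f * (x + y * a), h + t * d - y * f * b]) (P := uu M) (Q := uu (-M))
  · ext i j
    fin_cases i <;> fin_cases j <;>
      simp [Matrix.mul_apply, Fin.sum_univ_two]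
    · ring
    · ring
    · ring
    · linear_combination hh
  · rw [uu_mul, add_neg_cancel, uu_zero]
  · have key : uu M * (1 + !![t * (x + y * a) - z * f' * y * c - 1,
          t * y * b - z * f' * (x + y * d);
        t * c - f * (x + y * a), h + t * d - y * f * b] * !![1, 0; 0, y]) =
        ll (-f) * uu (κ - M) * ll c * uu ((1 - f * (κ - M)) *
          ((t * y * b - z * f' * (x + y * d)) * y + M * (1 + (h + t * d - y * f * b) * y))
          - (κ - M) * (1 + (h + t * d - y * f * b) * y)) := by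
      have e1 : uu M * (1 + !![t * (x + y * a) - z * f' * y * c - 1,
          t * y * b - z * f' * (x + y * d);
          t * c - f * (x + y * a), h + t * d - y * f * b] * !![1, 0; 0, y]) =
          !![1 + (κ - M) * c, (t * y * b - z * f' * (x + y * d)) * y +
            M * (1 + (h + t * d - y * f * b) * y);
            c - f * (1 + (κ - M) * c), 1 + (h + t * d - y * f * b) * y] := by
        ext i j
        fin_cases i <;> fin_cases j <;>
          simp [uu, Matrix.mul_apply, Fin.sum_univ_two]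
        · linear_combination hA
        · linear_combination -hB
      have e2 : ll (-f) * uu (κ - M) * ll c =
          !![1 + (κ - M) * c, κ - M; c - f * (1 + (κ - M) * c), 1 - f * (κ - M)] := by
        ext i j
        fin_cases i <;> fin_cases j <;>
          simp [uu, ll, Matrix.mul_apply, Fin.sum_univ_two]
        · ring
        · ring
      rw [e1, e2]
      apply eq_mul_uu
      · ring
      · linear_combination (1 + (h + t * d - y * f * b) * y) * (-hA) -
          ((t * y * b - z * f' * (x + y * d)) * y +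
            M * (1 + (h + t * d - y * f * b) * y)) * hB -
          (t * (x + y * a) - z * f' * y * c) * hh +
          (x ^ 2 + x * y * (a + d) + y ^ 2 * (a * d - b * c)) * hT + hx + y ^ 2 * had
    rw [key, Matrix.mul_assoc, uu_mul]
    exact lulu_two _ _ _ _

theorem half_two {a b c d x y κ t M N f f' h z : ℤ}
    (hx : x ^ 2 + x * y * (a + d) + y ^ 2 = 1) (had : a * d - b * c = 1)
    (hκ : x + y * a = -1 + κ * b)
    (hMN : M * N = z * y) (hf : t - 1 = M * f) (hf' : t + 1 = N * f')
    (hh : t * x = 1 + y * h) :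
    Half (!![x + y * a, y * b; y * c, x + y * d] * !![t, y * f'; z * f, t]) := by
  have hT : t ^ 2 - z * y * f * f' = 1 := by
    linear_combination (-f * f') * (-hMN) + (t + 1) * hf + (M * f) * hf'
  have hA : t * (x + y * a) + z * y * f * b - N * ((x + y * a) * f' + t * b) =
      1 - b * (N + κ) := by
    linear_combination (t - N * f') * hκ + (-1 + κ * b) * hf' - N * b * hf - b * f * hMN
  have hB : -b - f' * (1 - b * (N + κ)) = (x + y * a) * f' + t * b := by
    linear_combination (-b) * hf' - f' * hκ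
  apply half_of (D := !![y, 0; 0, 1])
    (F := !![h + t * a + z * f * b, (x + y * a) * f' + t * b;
      y * c * t + (x + y * d) * z * f, y ^ 2 * c * f' + t * (x + y * d) - 1])
      (P := ll N) (Q := ll (-N))
  · ext i j
    fin_cases i <;> fin_cases j <;>
      simp [Matrix.mul_apply, Fin.sum_univ_two]
    · linear_combination hh
    · ring
    · ring
    · ring
  · rw [ll_mul, add_neg_cancel, ll_zero]
  · have key : (1 + !![h + t * a + z * f * b, (x + y * a) * f' + t * b;
          y * c * t + (x + y * d) * z * f, y ^ 2 * c * f' + t * (x + y * d) - 1] *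
          !![y, 0; 0, 1]) * ll (-N) =
        ll (((y * c * t + (x + y * d) * z * f) * y - N * (y ^ 2 * c * f' + t * (x + y * d))) *
          (1 - (N + κ) * f') - (y ^ 2 * c * f' + t * (x + y * d)) * (N + κ)) *
          (uu (-b) * ll (N + κ) * uu (-f')) := by
      have e1 : (1 + !![h + t * a + z * f * b, (x + y * a) * f' + t * b;
          y * c * t + (x + y * d) * z * f, y ^ 2 * c * f' + t * (x + y * d) - 1] *
          !![y, 0; 0, 1]) * ll (-N) =
          !![1 - b * (N + κ), -b - f' * (1 - b * (N + κ));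
            (y * c * t + (x + y * d) * z * f) * y - N * (y ^ 2 * c * f' + t * (x + y * d)),
            y ^ 2 * c * f' + t * (x + y * d)] := by
        ext i j
        fin_cases i <;> fin_cases j <;>
          simp [ll, Matrix.mul_apply, Fin.sum_univ_two]
        · linear_combination hA - hh
        · linear_combination -hB
        · ring
      have e2 : uu (-b) * ll (N + κ) * uu (-f') =
          !![1 - b * (N + κ), -b - f' * (1 - b * (N + κ)); N + κ, 1 - (N + κ) * f'] := by
        ext i j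
        fin_cases i <;> fin_cases j <;>
          simp [uu, ll, Matrix.mul_apply, Fin.sum_univ_two]
        · ring
        · ring
        · ring
      rw [e1, e2]
      apply eq_ll_mul
      · ring
      · linear_combination (-(y ^ 2 * c * f' + t * (x + y * d))) * hA -
          ((y * c * t + (x + y * d) * z * f) * y - N * (y ^ 2 * c * f' + t * (x + y * d))) * hB +
          (x ^ 2 + x * y * (a + d) + y ^ 2 * (a * d - b * c)) * hT + hx + y ^ 2 * had
    rw [Matrix.mul_assoc, key, ← Matrix.mul_assoc, ← Matrix.mul_assoc, ← Matrix.mul_assoc, ll_mul]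
    exact lulu_two _ _ _ _

/-- The main two by two criterion. -/
theorem good_of_powers {a b c d x₁ y₁ x₂ y₂ κ₁ κ₂ : ℤ} (had : a * d - b * c = 1)
    (hx₁ : x₁ ^ 2 + x₁ * y₁ * (a + d) + y₁ ^ 2 = 1)
    (hx₂ : x₂ ^ 2 + x₂ * y₂ * (a + d) + y₂ ^ 2 = 1)
    (h0 : x₁ * x₂ - y₁ * y₂ = 0)
    (h1 : x₁ * y₂ + x₂ * y₁ + y₁ * y₂ * (a + d) = 1)
    (hκ₁ : x₁ + y₁ * a = 1 + κ₁ * c) (hκ₂ : x₂ + y₂ * a = -1 + κ₂ * b) :
    Good !![a, b; c, d] := by
  obtain ⟨t, u₁, u₂, ht₁, ht₂⟩ : ∃ t u₁ u₂ : ℤ, t = x₁ + y₁ * u₁ ∧ t = x₂ + y₂ * u₂ := by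
    refine ⟨x₁ * x₁ * y₂ + x₂ * (x₂ + y₂ * (a + d)) * y₁,
      (x₂ - x₁) * (x₂ + y₂ * (a + d)), (x₁ - x₂) * x₁, ?_, ?_⟩
    · linear_combination x₁ * h1
    · linear_combination x₂ * h1
  have hh₁ : t * x₁ = 1 + y₁ * (u₁ * x₁ - (x₁ * (a + d) + y₁)) := by
    rw [ht₁]; linear_combination hx₁
  have hh₂ : t * x₂ = 1 + y₂ * (u₂ * x₂ - (x₂ * (a + d) + y₂)) := by
    rw [ht₂]; linear_combination hx₂
  have hco : IsCoprime y₁ y₂ := ⟨x₂ + y₂ * (a + d), x₁, by linear_combination h1⟩
  have hdvd : y₁ * y₂ ∣ (t - 1) * (t + 1) := by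
    apply hco.mul_dvd
    · refine ⟨2 * x₁ * u₁ + y₁ * u₁ ^ 2 - (x₁ * (a + d) + y₁), ?_⟩
      rw [ht₁]; linear_combination hx₁
    · refine ⟨2 * x₂ * u₂ + y₂ * u₂ ^ 2 - (x₂ * (a + d) + y₂), ?_⟩
      rw [ht₂]; linear_combination hx₂
  obtain ⟨M, N, hM, hN, hMN⟩ := exists_dvd_and_dvd_of_dvd_mul hdvd
  obtain ⟨f, hf⟩ := hM
  obtain ⟨f', hf'⟩ := hN
  have H₁ := half_one (a := a) (b := b) (c := c) (d := d) (x := x₁) (y := y₁) (κ := κ₁) (t := t)
    (M := M) (N := N) (f := f) (f' := f') (z := y₂) hx₁ had hκ₁ hMN.symm hf hf' hh₁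
  have H₂ := half_two (a := a) (b := b) (c := c) (d := d) (x := x₂) (y := y₂) (κ := κ₂) (t := t)
    (M := M) (N := N) (f := f) (f' := f') (z := y₁) hx₂ had hκ₂ hMN.symm hf hf' hh₂
  have hT : t ^ 2 - y₁ * y₂ * f * f' = 1 := by
    linear_combination (-f * f') * hMN + (t + 1) * hf + (M * f) * hf'
  have hTT : !![t, y₂ * f'; y₁ * f, t] * !![t, -(y₂ * f'); -(y₁ * f), t] = 1 := by
    ext i j
    fin_cases i <;> fin_cases j <;>
      simp [Matrix.mul_apply, Fin.sum_univ_two]
    · linear_combination hT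
    · ring
    · ring
    · linear_combination hT
  have hPP : !![x₁ + y₁ * a, y₁ * b; y₁ * c, x₁ + y₁ * d] *
      !![x₂ + y₂ * a, y₂ * b; y₂ * c, x₂ + y₂ * d] = !![a, b; c, d] := by
    ext i j
    fin_cases i <;> fin_cases j <;>
      simp [Matrix.mul_apply, Fin.sum_univ_two]
    · linear_combination h0 + a * h1 - y₁ * y₂ * had
    · linear_combination b * h1
    · linear_combination c * h1
    · linear_combination h0 + d * h1 - y₁ * y₂ * had
  have hG : Good ((!![t, -(y₂ * f'); -(y₁ * f), t] *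
      !![x₁ + y₁ * a, y₁ * b; y₁ * c, x₁ + y₁ * d]) *
      (!![x₂ + y₂ * a, y₂ * b; y₂ * c, x₂ + y₂ * d] * !![t, y₂ * f'; y₁ * f, t])) :=
    ⟨_, _, rfl, H₁, H₂⟩
  have hG' := hG.conj hTT
  convert hG' using 1
  calc !![a, b; c, d] = 1 * (!![x₁ + y₁ * a, y₁ * b; y₁ * c, x₁ + y₁ * d] *
      !![x₂ + y₂ * a, y₂ * b; y₂ * c, x₂ + y₂ * d]) * 1 := by rw [hPP, Matrix.one_mul, Matrix.mul_one]
    _ = _ := by rw [← hTT]; simp only [Matrix.mul_assoc]

end Pool.Agent.H370.UL
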